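import Pool.Agent.H18Z.Defs
import Pool.Agent.H336R2.HD.D2

/-! Task D2: class pairs and the exponent `e_p`. -/

open Polynomial Pool.Agent.H337R2
open Pool.Agent.H336R2.HD (D2_mod1 D2_mod2 D2_cnt_congr D2_cnt_refl)

namespace Pool.Agent.H18Z

noncomputable section

theorem D2_kap_mem {n p k : ℕ} (hp : 0 < p) (hk : k ≤ 18 * n) : kap n p k ∈ Kset n p := by
  unfold kap Kset
  rw [Finset.mem_filter, Finset.mem_range]
  refine ⟨(min_le_left _ _).trans_lt (Nat.mod_lt _ hp), ?_⟩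
  rcases le_total (k % p) ((18 * n - k) % p) with h | h
  · rw [min_eq_left h, D2_mod1 hk]
    exact h
  · rw [min_eq_right h, D2_mod2 hk]
    exact h

lemma D2_ee_congr {n p k k' : ℕ} (h : k % p = k' % p) : eeN p n k = eeN p n k' := by
  unfold eeN ee n1 nq
  simp only [D2_cnt_congr h]

lemma D2_n1_refl {n p k : ℕ} (hn : 1 ≤ n) (hk : k ≤ 18 * n) :
    n1 p 18 2 n (18 * n - k) = n1 p 18 2 n k := by
  unfold n1
  rw [D2_cnt_refl (by omega) (by omega) hk, D2_cnt_refl (by omega) (by omega) hk]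
  have h1 : 18 * n - (18 * n - 1) = 1 := by omega
  have h2 : 18 * n - (18 * n - 2 * n) = 2 * n := by omega
  rw [h1, h2, add_comm]

lemma D2_cnt_brick_refl {n p k : ℕ} (hk : k ≤ 18 * n) :
    cnt p (3 * n) (18 * n - 3 * n) (18 * n - k) = cnt p (3 * n) (18 * n - 3 * n) k := by
  rw [D2_cnt_refl (by omega) (by omega) hk]
  have h2 : 18 * n - (18 * n - 3 * n) = 3 * n := by omega
  rw [h2]

lemma D2_ee_refl {n p k : ℕ} (hn : 1 ≤ n) (hk : k ≤ 18 * n) : eeN p n (18 * n - k) = eeN p n k := by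
  unfold eeN ee nq
  rw [D2_n1_refl hn hk]
  simp only [List.map_cons, List.map_nil, D2_cnt_brick_refl hk]

theorem D2_ee_kap {n p k : ℕ} (hn : 1 ≤ n) (hp : 0 < p) (hk : k ≤ 18 * n) : eeN p n (kap n p k) = eeN p n k := by
  unfold kap
  rcases le_total (k % p) ((18 * n - k) % p) with h | h
  · rw [min_eq_left h]
    exact D2_ee_congr (Nat.mod_mod _ _)
  · rw [min_eq_right h, D2_ee_congr (Nat.mod_mod _ _), D2_ee_refl hn hk]

end

end Pool.Agent.H18Z
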