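import Pool.Agent.H18Z.DefsG

/-!
# Data of the archimedean part: atoms, exponents, exponents of the bounds; the basis `P_i`
-/

open Polynomial Pool.Agent.H337R2

namespace Pool.Agent.H18Z

noncomputable section

/-- atoms of part 1 -/
def la1 : List (ℚ × ℚ) := [(1, 1/5), (21/5, 12/5), (37/5, 29/5), (23/2, 103/10), (86/5, 71/5), (241/10, 1/2)]

/-- exponents of part 1 (4 stages, 6 atoms, each stage of total exponent 15) -/
def ls1 : List (List ℕ) := [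
   [4, 7, 4, 0, 0, 0],
   [2, 1, 4, 6, 0, 2],
   [2, 0, 2, 2, 6, 3],
   [1, 0, 0, 0, 13, 1]]

/-- bounds of part 1: powers of two, shifted by `38000` -/
def lt1 : List ℕ := [222, 1500, 2937, 4439, 5997]

/-- atoms of part 2 -/
def la2 : List (ℚ × ℚ) := [(164/5, 2/5), (184/5, 91/10), (44, 33/2), (252/5, 247/10), (569/10, 63/2), (327/5, 197/5), (74, 244/5), (843/10, 587/10), (95, 141/2), (1107/10, 859/10), (263/2, 1057/10), (772/5, 1301/10)]

/-- exponents of part 2 (6 stages, 12 atoms, each stage of total exponent 40) -/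
def ls2 : List (List ℕ) := [
   [6, 13, 10, 9, 2, 0, 0, 0, 0, 0, 0, 0],
   [7, 0, 7, 1, 8, 12, 5, 0, 0, 0, 0, 0],
   [5, 0, 4, 2, 2, 4, 5, 14, 4, 0, 0, 0],
   [5, 0, 1, 1, 4, 0, 5, 0, 12, 12, 0, 0],
   [4, 0, 1, 1, 1, 2, 2, 3, 1, 9, 16, 0],
   [3, 0, 2, 0, 1, 1, 1, 2, 2, 5, 5, 18]]

/-- bounds of part 2: powers of two, shifted by `38000` -/
def lt2 : List ℕ := [5926, 10064, 14526, 19188, 24007, 28965, 34047]

abbrev at1 (k : ℕ) : ℚ × ℚ := la1.getD k (0, 0)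
abbrev at2 (k : ℕ) : ℚ × ℚ := la2.getD k (0, 0)
abbrev sg1 (s k : ℕ) : ℕ := (ls1.getD s []).getD k 0
abbrev sg2 (s k : ℕ) : ℕ := (ls2.getD s []).getD k 0
abbrev t1 (s : ℕ) : ℕ := lt1.getD s 0
abbrev t2 (s : ℕ) : ℕ := lt2.getD s 0

/-- stage polynomial of part 1, degree `30` -/
def C1 (N s : ℕ) : ℚ[X] := ∏ k ∈ Finset.range 6, qa N (at1 k).1 (at1 k).2 ^ sg1 s k

/-- stage polynomial of part 2, degree `80` -/
def C2 (N s : ℕ) : ℚ[X] := ∏ k ∈ Finset.range 12, qa N (at2 k).1 (at2 k).2 ^ sg2 s k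

/-- `∏ |q|^(4 σ)` of stage `s`, part 1, on the contour starting at `c` -/
def Q1 (c : ℚ) (s : ℕ) (ρ : ℝ) : ℝ := ∏ k ∈ Finset.range 6, Qb c (at1 k).1 (at1 k).2 ρ ^ (2 * sg1 s k)

/-- `∏ |q|^(4 σ)` of stage `s`, part 2 (contour starting at `24`) -/
def Q2 (s : ℕ) (ρ : ℝ) : ℝ := ∏ k ∈ Finset.range 12, Qb 24 (at2 k).1 (at2 k).2 ρ ^ (2 * sg2 s k)

/-- number of factors `C1 N s` in `P_i` -/
def e1 (N i s : ℕ) : ℕ := min N ((i - 30 * N * s) / 30)

/-- number of factors `C2 N s` in `P_(216N+i)` -/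
def e2 (N i s : ℕ) : ℕ := min N ((i - 80 * N * s) / 80)

/-- `P_i` for `i < 120 N` -/
def P1 (N i : ℕ) : ℚ[X] := (∏ s ∈ Finset.range 4, C1 N s ^ e1 N i s) * X ^ (i % 30)

/-- `P_(216N+i) = MU * P2 i`, for `i < 480 N` -/
def P2 (N i : ℕ) : ℚ[X] := (∏ s ∈ Finset.range 6, C2 N s ^ e2 N i s) * X ^ (i % 80)

/-- the basis -/
def PN (N i : ℕ) : ℚ[X] := if i < 120 * N then P1 N i else MU N * P2 N (i - 120 * N)

/-- exponent of two in the bound, times two, shifted by `38000 N` -/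
def EX (N i : ℕ) : ℕ :=
  if i < 120 * N then t1 0 * N + ∑ s ∈ Finset.range 4, (t1 (s + 1) - t1 s) * e1 N i s
  else t2 0 * N + ∑ s ∈ Finset.range 6, (t2 (s + 1) - t2 s) * e2 N (i - 120 * N) s

/-- the constant of the archimedean bound -/
def JJ : ℝ := (300 * Lam + (Real.log 2 / 2) * (9698485 - 600 * 38000)) / 576 - 1250 * Real.log 24

end

end Pool.Agent.H18Z
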