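import Pool.Agent.H18Z.Defs

/-! Task E2: `E2_self` and `E2_zz`. -/

open Polynomial Pool.Agent.H337R2

namespace Pool.Agent.H18Z

set_option linter.unusedVariables false

noncomputable section

/-- pairs in the same residue class -/
lemma E2_pairs_le (p A B A' B' : ℕ) :
    ∑ r ∈ Finset.range p, cnt p A B r * cnt p A' B' r ≤
      ((Finset.Icc A B ×ˢ Finset.Icc A' B').filter fun x : ℕ × ℕ => (p : ℤ) ∣ (x.1 : ℤ) - x.2).card := by
  classical
  set S := (Finset.Icc A B ×ˢ Finset.Icc A' B').filter fun x : ℕ × ℕ => (p : ℤ) ∣ (x.1 : ℤ) - x.2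
    with hS
  set T : ℕ → Finset (ℕ × ℕ) := fun r =>
    (Finset.Icc A B).filter (fun m : ℕ => (p : ℤ) ∣ (m : ℤ) - r) ×ˢ
      (Finset.Icc A' B').filter (fun m : ℕ => (p : ℤ) ∣ (m : ℤ) - r) with hT
  have h1 : ∑ r ∈ Finset.range p, cnt p A B r * cnt p A' B' r = ∑ r ∈ Finset.range p, (T r).card := by
    refine Finset.sum_congr rfl fun r _ => ?_
    rw [hT]
    simp only
    rw [Finset.card_product]
    rfl
  rw [h1, ← Finset.card_biUnion]
  · apply Finset.card_le_card
    intro x hx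
    rw [Finset.mem_biUnion] at hx
    obtain ⟨r, _, hx⟩ := hx
    rw [hT] at hx
    simp only at hx
    rw [Finset.mem_product, Finset.mem_filter, Finset.mem_filter] at hx
    rw [hS, Finset.mem_filter, Finset.mem_product]
    refine ⟨⟨hx.1.1, hx.2.1⟩, ?_⟩
    have : (x.1 : ℤ) - x.2 = ((x.1 : ℤ) - r) - ((x.2 : ℤ) - r) := by ring
    rw [this]
    exact Int.dvd_sub hx.1.2 hx.2.2
  · intro r hr s hs hrs
    rw [Function.onFun, Finset.disjoint_left]
    intro x hx hx'
    rw [hT] at hx hx'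
    simp only at hx hx'
    rw [Finset.mem_product, Finset.mem_filter, Finset.mem_filter] at hx hx'
    apply hrs
    have hr' := Finset.mem_range.1 (Finset.mem_coe.1 hr)
    have hs' := Finset.mem_range.1 (Finset.mem_coe.1 hs)
    have h2 : (p : ℤ) ∣ (s : ℤ) - r := by
      have : (s : ℤ) - r = ((x.1 : ℤ) - r) - ((x.1 : ℤ) - s) := by ring
      rw [this]
      exact Int.dvd_sub hx.1.2 hx'.1.2
    have h3 : |(s : ℤ) - r| < p := by rw [abs_lt]; constructor <;> omega
    have h4 := Int.eq_zero_of_abs_lt_dvd h2 h3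
    omega

theorem E2_self {n p a : ℕ} (hn : 1 ≤ n) (hp : p.Prime) (hpn : n < 20 * p) (A : ℕ) (ha : a ≤ 18) (ha0 : 1 ≤ a) :
    ((∑ r ∈ Finset.range p, cnt p A (A + a * n) r ^ 2 : ℕ) : ℝ) ≤ (a * n + 1) + 2 * ∑ j ∈ J, (tn (a * n) j p + 1) := by
  have hp0 : 0 < p := hp.pos
  have hJ : ∀ j : ℕ, 1 ≤ j → j < 360 → j ∈ J := fun j h1 h2 => Finset.mem_Icc.2 ⟨h1, by omega⟩
  generalize J = K at hJ ⊢
  have h1 : ∑ r ∈ Finset.range p, cnt p A (A + a * n) r ^ 2 ≤
      ((Finset.Icc A (A + a * n) ×ˢ Finset.Icc A (A + a * n)).filter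
        fun x : ℕ × ℕ => (p : ℤ) ∣ (x.1 : ℤ) - x.2).card := by
    refine le_trans (le_of_eq ?_) (E2_pairs_le p A (A + a * n) A (A + a * n))
    exact Finset.sum_congr rfl fun r _ => by rw [sq]
  refine le_trans (Nat.cast_le.2 h1) ?_
  set L := a * n with hL
  have hL12 : L ≤ 18 * n := Nat.mul_le_mul_right _ ha
  have hsub : ((Finset.Icc A (A + L) ×ˢ Finset.Icc A (A + L)).filter
        fun x : ℕ × ℕ => (p : ℤ) ∣ (x.1 : ℤ) - x.2) ⊆
      (Finset.Icc A (A + L)).image (fun y => (y, y)) ∪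
        ((K.biUnion fun j => (Finset.Ico A (A + (L + 1 - j * p))).image fun y => (y, y + j * p)) ∪
         (K.biUnion fun j => (Finset.Ico A (A + (L + 1 - j * p))).image fun y => (y + j * p, y))) := by
    rintro ⟨x, y⟩ hx
    rw [Finset.mem_filter, Finset.mem_product, Finset.mem_Icc, Finset.mem_Icc] at hx
    obtain ⟨⟨⟨hx1, hx2⟩, hy1, hy2⟩, q, hq⟩ := hx
    simp only at hx1 hx2 hy1 hy2 hq
    rw [Finset.mem_union, Finset.mem_union]
    rcases lt_trichotomy q 0 with h | h | h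
    · -- y = x + j p
      right; left
      obtain ⟨j, rfl⟩ : ∃ j : ℕ, q = -(j : ℤ) := ⟨q.natAbs, by omega⟩
      have hj1 : 1 ≤ j := by omega
      have hy : y = x + j * p := by
        zify; linarith
      have hjL : j * p ≤ L := by omega
      have hj2 : j < 360 := by
        by_contra hcon
        push Not at hcon
        have : 360 * p ≤ j * p := Nat.mul_le_mul_right _ hcon
        omega
      rw [Finset.mem_biUnion]
      refine ⟨j, hJ j hj1 hj2, ?_⟩
      rw [Finset.mem_image]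
      exact ⟨x, Finset.mem_Ico.2 ⟨hx1, by omega⟩, by rw [hy]⟩
    · left
      rw [Finset.mem_image]
      refine ⟨x, Finset.mem_Icc.2 ⟨hx1, hx2⟩, ?_⟩
      rw [h] at hq
      have : x = y := by omega
      rw [this]
    · right; right
      obtain ⟨j, rfl⟩ : ∃ j : ℕ, q = (j : ℤ) := ⟨q.natAbs, by omega⟩
      have hj1 : 1 ≤ j := by omega
      have hy : x = y + j * p := by
        zify; linarith
      have hjL : j * p ≤ L := by omega
      have hj2 : j < 360 := by
        by_contra hcon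
        push Not at hcon
        have : 360 * p ≤ j * p := Nat.mul_le_mul_right _ hcon
        omega
      rw [Finset.mem_biUnion]
      refine ⟨j, hJ j hj1 hj2, ?_⟩
      rw [Finset.mem_image]
      exact ⟨y, Finset.mem_Ico.2 ⟨hy1, by omega⟩, by rw [hy]⟩
  have hb : ∀ f : ℕ → ℕ → ℕ × ℕ,
      ((K.biUnion fun j => (Finset.Ico A (A + (L + 1 - j * p))).image (f j)).card : ℝ) ≤
        ∑ j ∈ K, (tn L j p + 1) := by
    intro f
    have e1 : (K.biUnion fun j => (Finset.Ico A (A + (L + 1 - j * p))).image (f j)).card ≤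
        ∑ j ∈ K, (L + 1 - j * p) := by
      refine Finset.card_biUnion_le.trans (Finset.sum_le_sum fun j _ => ?_)
      refine Finset.card_image_le.trans ?_
      rw [Nat.card_Ico]; omega
    have e2 : ((∑ j ∈ K, (L + 1 - j * p) : ℕ) : ℝ) ≤ ∑ j ∈ K, (tn L j p + 1) := by
      rw [Nat.cast_sum]
      refine Finset.sum_le_sum fun j _ => ?_
      unfold tn
      have : L + 1 - j * p ≤ (L - j * p) + 1 := by omega
      exact_mod_cast this
    exact le_trans (by exact_mod_cast e1) e2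
  have hc := Finset.card_le_card hsub
  have hc2 := hc.trans ((Finset.card_union_le _ _).trans
    (Nat.add_le_add_left (Finset.card_union_le _ _) _))
  have hd : ((Finset.Icc A (A + L)).image (fun y => (y, y))).card ≤ L + 1 := by
    refine Finset.card_image_le.trans ?_
    rw [Nat.card_Icc]; omega
  have b1 := hb fun j y => (y, y + j * p)
  have b2 := hb fun j y => (y + j * p, y)
  have hc3 : (((Finset.Icc A (A + L) ×ˢ Finset.Icc A (A + L)).filter
        fun x : ℕ × ℕ => (p : ℤ) ∣ (x.1 : ℤ) - x.2).card : ℝ) ≤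
      (((Finset.Icc A (A + L)).image (fun y => (y, y))).card : ℝ) +
      (((K.biUnion fun j => (Finset.Ico A (A + (L + 1 - j * p))).image fun y => (y, y + j * p)).card : ℝ) +
      ((K.biUnion fun j => (Finset.Ico A (A + (L + 1 - j * p))).image fun y => (y + j * p, y)).card : ℝ)) := by
    exact_mod_cast hc2
  have hd' : (((Finset.Icc A (A + L)).image (fun y => (y, y))).card : ℝ) ≤ (L : ℝ) + 1 := by
    exact_mod_cast hd
  have hLr : ((a : ℝ) * n) = (L : ℝ) := by rw [hL]; push_cast; ring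
  rw [hLr]
  linarith

theorem E2_zz {n p : ℕ} (hn : 1 ≤ n) (hp : p.Prime) (hpn : n < 20 * p) :
    ((∑ r ∈ Finset.range p, cnt p 1 (2 * n) r * cnt p (16 * n) (18 * n - 1) r : ℕ) : ℝ) ≤
      ∑ j ∈ J, (tn (18 * n) j p - 2 * tn (16 * n) j p + tn (14 * n) j p + 1) := by
  have hp0 : 0 < p := hp.pos
  have hJ : ∀ j : ℕ, 1 ≤ j → j < 360 → j ∈ J := fun j h1 h2 => Finset.mem_Icc.2 ⟨h1, by omega⟩
  generalize J = K at hJ ⊢
  refine le_trans (Nat.cast_le.2 (E2_pairs_le p 1 (2 * n) (16 * n) (18 * n - 1))) ?_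
  have hsub : ((Finset.Icc 1 (2 * n) ×ˢ Finset.Icc (16 * n) (18 * n - 1)).filter
        fun x : ℕ × ℕ => (p : ℤ) ∣ (x.1 : ℤ) - x.2) ⊆
      K.biUnion fun j => (Finset.Icc (max 1 (16 * n - j * p)) (min (2 * n) (18 * n - 1 - j * p))).image
        fun y => (y, y + j * p) := by
    rintro ⟨x, y⟩ hx
    rw [Finset.mem_filter, Finset.mem_product, Finset.mem_Icc, Finset.mem_Icc] at hx
    obtain ⟨⟨⟨hx1, hx2⟩, hy1, hy2⟩, q, hq⟩ := hx
    simp only at hx1 hx2 hy1 hy2 hq
    have hq0 : q < 0 := by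
      by_contra hcon
      push Not at hcon
      have : 0 ≤ (p : ℤ) * q := by positivity
      omega
    obtain ⟨j, rfl⟩ : ∃ j : ℕ, q = -(j : ℤ) := ⟨q.natAbs, by omega⟩
    have hj1 : 1 ≤ j := by omega
    have hy : y = x + j * p := by
      zify; linarith
    have hjL : j * p ≤ 18 * n - 1 := by omega
    have hj2 : j < 360 := by
      by_contra hcon
      push Not at hcon
      have : 360 * p ≤ j * p := Nat.mul_le_mul_right _ hcon
      omega
    rw [Finset.mem_biUnion]
    refine ⟨j, hJ j hj1 hj2, ?_⟩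
    rw [Finset.mem_image]
    refine ⟨x, Finset.mem_Icc.2 ⟨?_, ?_⟩, by rw [hy]⟩
    · exact max_le hx1 (by omega)
    · exact le_min hx2 (by omega)
  have hc := Finset.card_le_card hsub
  have e1 : (K.biUnion fun j => (Finset.Icc (max 1 (16 * n - j * p)) (min (2 * n) (18 * n - 1 - j * p))).image
        fun y => (y, y + j * p)).card ≤
      ∑ j ∈ K, (min (2 * n) (18 * n - 1 - j * p) + 1 - max 1 (16 * n - j * p)) := by
    refine Finset.card_biUnion_le.trans (Finset.sum_le_sum fun j _ => ?_)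
    refine Finset.card_image_le.trans ?_
    rw [Nat.card_Icc]
  have e2 : ((∑ j ∈ K, (min (2 * n) (18 * n - 1 - j * p) + 1 - max 1 (16 * n - j * p)) : ℕ) : ℝ) ≤
      ∑ j ∈ K, (tn (18 * n) j p - 2 * tn (16 * n) j p + tn (14 * n) j p + 1) := by
    rw [Nat.cast_sum]
    refine Finset.sum_le_sum fun j _ => ?_
    unfold tn
    have h : (min (2 * n) (18 * n - 1 - j * p) + 1 - max 1 (16 * n - j * p)) + 2 * (16 * n - j * p) ≤
        (18 * n - j * p) + (14 * n - j * p) + 1 := by
      generalize j * p = d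
      omega
    have h' : ((min (2 * n) (18 * n - 1 - j * p) + 1 - max 1 (16 * n - j * p) : ℕ) : ℝ) +
        2 * ((16 * n - j * p : ℕ) : ℝ) ≤ ((18 * n - j * p : ℕ) : ℝ) + ((14 * n - j * p : ℕ) : ℝ) + 1 := by
      exact_mod_cast h
    linarith
  refine le_trans ?_ e2
  exact_mod_cast hc.trans e1

end

end Pool.Agent.H18Z
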