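import Pool.Agent.H18Z.Defs

/-!
The four limits `LA`, `LB`, `LC`, `LU` (rational numbers).
-/

namespace Pool.Agent.H18Z

noncomputable section

/-- the limits -/
def LA : ℚ := 125 * (2 - 1 / 20) - 250 * Ifl 12 (1 / 20) 2 + 250 * Ifl 2 (1 / 20) 2 +
  (25 * (12 * (2 - 1 / 20) + 2 * ∑ j ∈ J, It 12 j (1 / 20) 2)
    - 50 * ∑ j ∈ J, (It 15 j (1 / 20) 2 + It 1 j (1 / 20) 2 - It 13 j (1 / 20) 2 - It 3 j (1 / 20) 2)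
    + 25 / 4 * (4 * (2 - 1 / 20) + 4 * ∑ j ∈ J, It 2 j (1 / 20) 2
      + 2 * ∑ j ∈ J, (It 18 j (1 / 20) 2 - 2 * It 16 j (1 / 20) 2 + It 14 j (1 / 20) 2))) / 2

def LB : ℚ := 125 * (13 / 2) - 250 * Ifl 12 2 (17 / 2) +
  (25 * (12 * (13 / 2) + 2 * ∑ j ∈ J, It 12 j 2 (17 / 2))
    - 50 * ∑ j ∈ J, (It 15 j 2 (17 / 2) + It 1 j 2 (17 / 2) - It 13 j 2 (17 / 2) - It 3 j 2 (17 / 2))
    + (24 * (13 / 2) + 13 * ∑ j ∈ J, (It 18 j 2 (17 / 2) - 2 * It 16 j 2 (17 / 2) + It 14 j 2 (17 / 2)))) / 2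

def LC : ℚ := - 250 * Ifl 12 (17 / 2) 13 + 22 * It 12 1 (17 / 2) 13 + 56 * It 13 1 (17 / 2) 13

def LU : ℚ := ∑ j ∈ J, It 50 j (1 / 20) 50

end

end Pool.Agent.H18Z
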