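import Pool.Agent.H18Z.FL

/-! The numerical value of the four limits (`= 2288.6129...`): terms with `α ≤ lo * j` vanish, the
rest is done by kernel evaluation. -/

namespace Pool.Agent.H18Z

theorem f3_max (α j K : ℕ) (lo hi : ℚ) (hlo : 0 < lo) (hhi : lo ≤ hi) (h : (α : ℚ) ≤ lo * K)
    (hj : K < j) : max lo (min hi ((α : ℚ) / j)) = lo := by
  apply max_eq_left
  apply le_trans (min_le_right _ _)
  have hj0 : (0 : ℚ) < (j : ℚ) := by exact_mod_cast (lt_of_le_of_lt (Nat.zero_le K) hj)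
  rw [div_le_iff₀ hj0]
  refine le_trans h ?_
  apply mul_le_mul_of_nonneg_left _ hlo.le
  exact_mod_cast hj.le

theorem f3_It (α K : ℕ) (lo hi : ℚ) (hlo : 0 < lo) (hhi : lo ≤ hi) (h : (α : ℚ) ≤ lo * K)
    (hK : K ≤ 1000) : ∑ j ∈ J, It α j lo hi = ∑ j ∈ Finset.Icc 1 K, It α j lo hi := by
  symm
  apply Finset.sum_subset
  · exact Finset.Icc_subset_Icc_right hK
  · intro j _ hj2
    have hj3 : K < j := by
      rw [Finset.mem_Icc] at *
      omega
    unfold It
    rw [f3_max α j K lo hi hlo hhi h hj3]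
    ring

theorem f3_Ifl (α K : ℕ) (lo hi : ℚ) (hlo : 0 < lo) (hhi : lo ≤ hi) (h : (α : ℚ) ≤ lo * K)
    (hK : K ≤ 1000) :
    Ifl α lo hi = ∑ j ∈ Finset.Icc 1 K, (max lo (min hi ((α : ℚ) / j)) - lo) := by
  symm
  unfold Ifl
  apply Finset.sum_subset
  · exact Finset.Icc_subset_Icc_right hK
  · intro j _ hj2
    have hj3 : K < j := by
      rw [Finset.mem_Icc] at *
      omega
    rw [f3_max α j K lo hi hlo hhi h hj3]
    ring

theorem f3_J (f : ℕ → ℚ) : ∑ j ∈ J, f j =
    ∑ j ∈ Finset.Ico 1 334, f j + ∑ j ∈ Finset.Ico 334 667, f j + ∑ j ∈ Finset.Ico 667 1001, f j := by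
  rw [Finset.sum_Ico_consecutive _ (by norm_num) (by norm_num),
    Finset.sum_Ico_consecutive _ (by norm_num) (by norm_num)]
  rfl

theorem f3_U1 : ∑ j ∈ Finset.Ico 1 334, It 50 j (1 / 20) 50 ≤ 72206 / 10 := by
  decide +kernel

theorem f3_U2 : ∑ j ∈ Finset.Ico 334 667, It 50 j (1 / 20) 50 ≤ 24113 / 100 := by
  decide +kernel

theorem f3_U3 : ∑ j ∈ Finset.Ico 667 1001, It 50 j (1 / 20) 50 ≤ 2076 / 100 := by
  decide +kernel

theorem f3_LU : LU ≤ 748249 / 100 := by
  unfold LU
  rw [f3_J]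
  have h1 := f3_U1
  have h2 := f3_U2
  have h3 := f3_U3
  linarith

theorem f3_ABC : LA + LB + LC ≤ -519385 / 100 := by
  unfold LA LB LC
  simp only [Finset.sum_add_distrib, Finset.sum_sub_distrib, ← Finset.mul_sum]
  rw [f3_Ifl 12 240 (1 / 20) 2 (by norm_num) (by norm_num) (by norm_num) (by norm_num),
    f3_Ifl 2 40 (1 / 20) 2 (by norm_num) (by norm_num) (by norm_num) (by norm_num),
    f3_It 12 240 (1 / 20) 2 (by norm_num) (by norm_num) (by norm_num) (by norm_num),
    f3_It 15 300 (1 / 20) 2 (by norm_num) (by norm_num) (by norm_num) (by norm_num),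
    f3_It 1 20 (1 / 20) 2 (by norm_num) (by norm_num) (by norm_num) (by norm_num),
    f3_It 13 260 (1 / 20) 2 (by norm_num) (by norm_num) (by norm_num) (by norm_num),
    f3_It 3 60 (1 / 20) 2 (by norm_num) (by norm_num) (by norm_num) (by norm_num),
    f3_It 2 40 (1 / 20) 2 (by norm_num) (by norm_num) (by norm_num) (by norm_num),
    f3_It 18 360 (1 / 20) 2 (by norm_num) (by norm_num) (by norm_num) (by norm_num),
    f3_It 16 320 (1 / 20) 2 (by norm_num) (by norm_num) (by norm_num) (by norm_num),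
    f3_It 14 280 (1 / 20) 2 (by norm_num) (by norm_num) (by norm_num) (by norm_num),
    f3_Ifl 12 6 2 (17 / 2) (by norm_num) (by norm_num) (by norm_num) (by norm_num),
    f3_It 12 6 2 (17 / 2) (by norm_num) (by norm_num) (by norm_num) (by norm_num),
    f3_It 15 8 2 (17 / 2) (by norm_num) (by norm_num) (by norm_num) (by norm_num),
    f3_It 1 1 2 (17 / 2) (by norm_num) (by norm_num) (by norm_num) (by norm_num),
    f3_It 13 7 2 (17 / 2) (by norm_num) (by norm_num) (by norm_num) (by norm_num),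
    f3_It 3 2 2 (17 / 2) (by norm_num) (by norm_num) (by norm_num) (by norm_num),
    f3_It 18 9 2 (17 / 2) (by norm_num) (by norm_num) (by norm_num) (by norm_num),
    f3_It 16 8 2 (17 / 2) (by norm_num) (by norm_num) (by norm_num) (by norm_num),
    f3_It 14 7 2 (17 / 2) (by norm_num) (by norm_num) (by norm_num) (by norm_num),
    f3_Ifl 12 2 (17 / 2) 13 (by norm_num) (by norm_num) (by norm_num) (by norm_num)]
  decide +kernel

theorem F3_numeric : LA + LB + LC + LU ≤ 228864 / 100 := by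
  have h1 := f3_ABC
  have h2 := f3_LU
  linarith

end Pool.Agent.H18Z
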