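import Pool.Agent.H18Z.G1L
import Pool.Agent.H18Z.G1c

/-! # The archimedean comparison on the contour starting at `24 N - 1/2` -/

open Polynomial Pool.Agent.H337R2

namespace Pool.Agent.H18Z

noncomputable section

lemma G11_GP (p : ℕ) (ρ : ℝ) :
    (∏ a ∈ Finset.range 288, (qd ((p : ℝ) + a) ρ * qd ((p : ℝ) + a + 1) ρ)) ^ 5 =
      qd (p : ℝ) ρ ^ 5 * (∏ a ∈ Finset.Ico (p + 1) (p + 288), qd ((a : ℕ) : ℝ) ρ) ^ 10 *
        qd ((p + 288 : ℕ) : ℝ) ρ ^ 5 := by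
  have h1 : ∏ a ∈ Finset.range 288, qd ((p : ℝ) + a) ρ =
      qd (p : ℝ) ρ * ∏ a ∈ Finset.Ico (p + 1) (p + 288), qd ((a : ℕ) : ℝ) ρ := by
    rw [← Finset.prod_eq_prod_Ico_succ_bot (a := p) (b := p + 288) (by omega)
      (fun a : ℕ => qd (a : ℝ) ρ), Finset.prod_Ico_eq_prod_range, Nat.add_sub_cancel_left]
    refine Finset.prod_congr rfl fun a _ => ?_
    push_cast
    rfl
  have h2 : ∏ a ∈ Finset.range 288, qd ((p : ℝ) + a + 1) ρ =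
      (∏ a ∈ Finset.Ico (p + 1) (p + 288), qd ((a : ℕ) : ℝ) ρ) * qd ((p + 288 : ℕ) : ℝ) ρ := by
    rw [← Finset.prod_Ico_succ_top (by omega) (fun a : ℕ => qd (a : ℝ) ρ),
      Finset.prod_Ico_eq_prod_range]
    have e : p + 288 + 1 - (p + 1) = 288 := by omega
    rw [e]
    refine Finset.prod_congr rfl fun a _ => ?_
    congr 1
    push_cast
    ring
  rw [Finset.prod_mul_distrib, h1, h2]
  ring

lemma G11_GZ (a b : ℕ) (ρ : ℝ) (h : a + 48 = b) :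
    ∏ j ∈ Finset.range 48, qd ((a : ℝ) + j + 1 / 2) ρ =
      ∏ j ∈ Finset.Ico a b, qd ((j : ℕ) + 1 / 2) ρ := by
  rw [Finset.prod_Ico_eq_prod_range, ← h, Nat.add_sub_cancel_left]
  refine Finset.prod_congr rfl fun j _ => ?_
  push_cast
  rfl

theorem G1_1 : ∃ (C : ℝ) (K : ℕ), 0 < C ∧ ∀ N : ℕ, 1 ≤ N → ∀ n : ℕ, n = 24 * N + 1 → ∀ ρ : ℝ, 0 ≤ ρ →
    (‖Rv n (zv (24 * N) (N * ρ))‖ * ‖xv n (zv (24 * N) (N * ρ))‖ ^ 500 * Real.exp (-(2 * Real.pi * (N * ρ))) *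
      (1 + (N * ρ) ^ 2)) ^ 2 * GP1 ρ ^ N ≤
    C * (n : ℝ) ^ K * Real.exp (Lam * N) * (Real.exp (-(314 / 25) * ρ) * GZ1 ρ) ^ N := by
  obtain ⟨C, K, hC, h⟩ := G1L_gen 24 le_rfl G1_cst
  refine ⟨C, K, hC, fun N hN n hn ρ hρ => ?_⟩
  have h1 := h N hN n hn ρ hρ
  have e1 : (∏ a ∈ Finset.range 288, (qd (((24 : ℕ) : ℝ) + 72 + a) ρ *
      qd (((24 : ℕ) : ℝ) + 72 + a + 1) ρ)) ^ 5 = GP1 ρ := by
    have := G11_GP 96 ρ
    have e : ((24 : ℕ) : ℝ) + 72 = ((96 : ℕ) : ℝ) := by norm_num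
    rw [e, this]
    unfold GP1
    norm_num
  have e2 : (∏ a ∈ Finset.range 48, qd (((24 : ℕ) : ℝ) + a + 1 / 2) ρ) ^ 5 *
        (∏ a ∈ Finset.range 48, qd (((24 : ℕ) : ℝ) + 384 + a + 1 / 2) ρ) ^ 5 = GZ1 ρ := by
    have e : ((24 : ℕ) : ℝ) + 384 = ((408 : ℕ) : ℝ) := by norm_num
    rw [e, G11_GZ 24 72 ρ (by norm_num), G11_GZ 408 456 ρ (by norm_num)]
    rfl
  rw [e1, e2] at h1
  exact h1

end

end Pool.Agent.H18Z
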