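import Pool.Agent.H18Z.G3L

set_option autoImplicit false

/-! # G3C: numerical certificate (break points in units of `1/80`) -/

namespace Pool.Agent.H18Z

namespace G3C

open G3L

/-- break points -/
def br : List ℕ :=
  [21, 40, 61, 82, 109, 143, 176, 214, 268, 338, 406, 457, 506, 551, 596, 660, 746, 818, 931,
   1008, 1061, 1103, 1139, 1179, 1229, 1320, 1482, 1590, 1661, 1718, 1763, 1803, 1872, 2031,
   2137, 2198, 2245, 2286, 2328, 2379, 2436, 2535, 2658, 2722, 2778, 2826, 2869, 2911, 2987,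
   3172, 3360, 3437, 3498, 3545, 3580, 3629, 3686, 3789, 4018, 4090, 4166, 4234, 4289, 4336,
   4394, 4531, 4851, 4944, 5039, 5129, 5219, 5295, 5378, 5528, 5796, 5890, 5994, 6080, 6153,
   6213, 6289, 6388, 6622, 7119, 7259, 7403, 7522, 7620, 7698, 7780, 7956, 8434, 8750, 8919,
   9095, 9247, 9370, 9515, 9678, 9937, 10575, 10737, 10959, 11194, 11399, 11568, 11742, 11967,
   12445, 13714, 17322, 28146, 67383, 80000]

theorem c1 : chkL PL1 stC lt2 (0 :: br) = true := by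
  decide +kernel

theorem c2 : chkT PL1 stC lt2 ((0 :: br).getLast (by simp)) 4 = true := by
  decide +kernel

end G3C

theorem G3_C (s : ℕ) (hs : s ≤ 6) (ρ : ℝ) (hρ : 0 ≤ ρ) :
    2 ^ 38000 * (Real.exp (-(314 / 25) * ρ) * GZ2 ρ * ∏ s' ∈ Finset.range s, Q2 s' ρ) ≤ 2 ^ t2 s * GP1 ρ :=
  G3L.mainC G3C.br (by simp [G3C.br]) G3C.c1 G3C.c2 s hs ρ hρ

end Pool.Agent.H18Z
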