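import Pool.Agent.H18Z.Defs

/-!
# The local Hankel determinant is nonzero (task H5)

Everything is computed modulo `101`; the certificate is the inverse matrix.
-/

set_option autoImplicit false

open Polynomial Pool.Agent.H337R2

namespace Pool.Agent.H18Z

namespace H5

theorem prime101 : Nat.Prime 101 := by norm_num

local instance fact101 : Fact (Nat.Prime 101) := ⟨prime101⟩

/-- `x` is integral at `101` with residue `a` -/
def Rd (x : ℚ) (a : ZMod 101) : Prop := ∃ m : ℤ, (m : ZMod 101) = a ∧ padicNorm 101 (x - m) < 1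

theorem Rd.le_one {x : ℚ} {a : ZMod 101} (h : Rd x a) : padicNorm 101 x ≤ 1 := by
  obtain ⟨m, -, h2⟩ := h
  have e : x = (x - m) + m := by ring
  rw [e]
  exact (padicNorm.nonarchimedean).trans (max_le h2.le (padicNorm.of_int m))

theorem Rd.int (m : ℤ) : Rd (m : ℚ) (m : ZMod 101) := ⟨m, rfl, by simp⟩

theorem Rd.nat (m : ℕ) : Rd (m : ℚ) (m : ZMod 101) := by
  have := Rd.int (m : ℤ)
  push_cast at this
  exact this

theorem Rd.zero : Rd 0 0 := by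
  have := Rd.int 0
  push_cast at this
  exact this

theorem Rd.one : Rd 1 1 := by
  have := Rd.int 1
  push_cast at this
  exact this

theorem Rd.add {x y : ℚ} {a b : ZMod 101} (h : Rd x a) (h' : Rd y b) : Rd (x + y) (a + b) := by
  obtain ⟨m, h1, h2⟩ := h
  obtain ⟨m', h1', h2'⟩ := h'
  refine ⟨m + m', by push_cast; rw [h1, h1'], ?_⟩
  have e : x + y - ((m + m' : ℤ) : ℚ) = (x - m) + (y - m') := by push_cast; ring
  rw [e]
  exact (padicNorm.nonarchimedean).trans_lt (max_lt h2 h2')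

theorem Rd.neg {x : ℚ} {a : ZMod 101} (h : Rd x a) : Rd (-x) (-a) := by
  obtain ⟨m, h1, h2⟩ := h
  refine ⟨-m, by push_cast; rw [h1], ?_⟩
  have e : -x - ((-m : ℤ) : ℚ) = -(x - m) := by push_cast; ring
  rw [e, padicNorm.neg]
  exact h2

theorem Rd.sub {x y : ℚ} {a b : ZMod 101} (h : Rd x a) (h' : Rd y b) : Rd (x - y) (a - b) := by
  rw [sub_eq_add_neg, sub_eq_add_neg]
  exact h.add h'.neg

theorem Rd.mul {x y : ℚ} {a b : ZMod 101} (h : Rd x a) (h' : Rd y b) : Rd (x * y) (a * b) := by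
  have hy := h'.le_one
  obtain ⟨m, h1, h2⟩ := h
  obtain ⟨m', h1', h2'⟩ := h'
  refine ⟨m * m', by push_cast; rw [h1, h1'], ?_⟩
  have e : x * y - ((m * m' : ℤ) : ℚ) = (x - m) * y + m * (y - m') := by push_cast; ring
  rw [e]
  refine (padicNorm.nonarchimedean).trans_lt (max_lt ?_ ?_)
  · rw [padicNorm.mul]
    exact mul_lt_one_of_nonneg_of_lt_one_left (padicNorm.nonneg _) h2 hy
  · rw [padicNorm.mul]
    exact mul_lt_one_of_nonneg_of_lt_one_right (padicNorm.of_int m) (padicNorm.nonneg _) h2'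

theorem Rd.pow {x : ℚ} {a : ZMod 101} (h : Rd x a) (n : ℕ) : Rd (x ^ n) (a ^ n) := by
  induction n with
  | zero => simpa using Rd.one
  | succ n ih => rw [pow_succ, pow_succ]; exact ih.mul h

theorem Rd.sum {ι : Type*} (s : Finset ι) (f : ι → ℚ) (g : ι → ZMod 101)
    (h : ∀ i ∈ s, Rd (f i) (g i)) : Rd (∑ i ∈ s, f i) (∑ i ∈ s, g i) := by
  classical
  induction s using Finset.induction_on with
  | empty => simpa using Rd.zero
  | insert a s ha ih =>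
    rw [Finset.sum_insert ha, Finset.sum_insert ha]
    exact (h a (Finset.mem_insert_self _ _)).add
      (ih fun i hi => h i (Finset.mem_insert_of_mem hi))

theorem Rd.prod {ι : Type*} (s : Finset ι) (f : ι → ℚ) (g : ι → ZMod 101)
    (h : ∀ i ∈ s, Rd (f i) (g i)) : Rd (∏ i ∈ s, f i) (∏ i ∈ s, g i) := by
  classical
  induction s using Finset.induction_on with
  | empty => simpa using Rd.one
  | insert a s ha ih =>
    rw [Finset.prod_insert ha, Finset.prod_insert ha]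
    exact (h a (Finset.mem_insert_self _ _)).mul
      (ih fun i hi => h i (Finset.mem_insert_of_mem hi))

theorem Rd.det {n : ℕ} (M : Matrix (Fin n) (Fin n) ℚ) (A : Matrix (Fin n) (Fin n) (ZMod 101))
    (h : ∀ i j, Rd (M i j) (A i j)) : Rd M.det A.det := by
  rw [Matrix.det_apply', Matrix.det_apply']
  apply Rd.sum
  intro σ _
  apply Rd.mul (Rd.int _)
  apply Rd.prod
  intro i _
  exact h _ _

theorem zmod_zero (m : ℤ) : ((m : ZMod 101) = 0) ↔ padicNorm 101 (m : ℚ) < 1 := by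
  rw [padicNorm.int_lt_one_iff, ZMod.intCast_zmod_eq_zero_iff_dvd]

theorem Rd.ne_zero {x : ℚ} {a : ZMod 101} (h : Rd x a) (ha : a ≠ 0) : x ≠ 0 := by
  rintro rfl
  obtain ⟨m, h1, h2⟩ := h
  apply ha
  rw [← h1, zmod_zero]
  rwa [zero_sub, padicNorm.neg] at h2

theorem Rd.inv {x : ℚ} {a b : ZMod 101} (h : Rd x a) (hab : a * b = 1) : Rd x⁻¹ b := by
  have hx0 : x ≠ 0 := h.ne_zero (by rintro rfl; simp at hab)
  obtain ⟨m, h1, h2⟩ := h
  obtain ⟨m', h1'⟩ := ZMod.intCast_surjective b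
  have hm : ((m : ZMod 101)) ≠ 0 := by
    rw [h1]; rintro rfl; simp at hab
  have hm1 : padicNorm 101 (m : ℚ) = 1 := by
    rw [padicNorm.int_eq_one_iff]
    intro hd
    exact hm ((ZMod.intCast_zmod_eq_zero_iff_dvd m 101).2 hd)
  have hx1 : padicNorm 101 x = 1 := by
    have e : x = (x - m) + m := by ring
    rw [e, padicNorm.add_eq_max_of_ne (by rw [hm1]; exact h2.ne), hm1]
    exact max_eq_right h2.le
  refine ⟨m', h1', ?_⟩
  have e : x⁻¹ - m' = (((1 - m * m' : ℤ) : ℚ) + m' * ((m : ℚ) - x)) / x := by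
    push_cast; field_simp; ring
  rw [e, padicNorm.div, hx1, div_one]
  refine (padicNorm.nonarchimedean).trans_lt (max_lt ?_ ?_)
  · rw [← zmod_zero]
    push_cast
    rw [h1, h1', hab, sub_self]
  · rw [padicNorm.mul, ← padicNorm.neg ((m : ℚ) - x), neg_sub]
    exact mul_lt_one_of_nonneg_of_lt_one_right (padicNorm.of_int m') (padicNorm.nonneg _) h2

/-! ### lists modulo 101 -/

/-- multiplication by `X + c`, with carry -/
def mulS (c : ℕ) : ℕ → List ℕ → List ℕ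
  | _, [] => []
  | prev, a :: l => ((prev + c * a) % 101) :: mulS c a l

/-- division by `X + a`, where `a' = 1 / a`, with carry -/
def divS (a' : ℕ) : ℕ → List ℕ → List ℕ
  | _, [] => []
  | prev, x :: l => ((x + (101 - prev)) * a' % 101) :: divS a' ((x + (101 - prev)) * a' % 101) l

theorem mulS_length (c : ℕ) (l : List ℕ) : ∀ prev, (mulS c prev l).length = l.length := by
  induction l with
  | nil => intro _; rfl
  | cons a l ih => intro prev; simp [mulS, ih]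

theorem divS_length (c : ℕ) (l : List ℕ) : ∀ prev, (divS c prev l).length = l.length := by
  induction l with
  | nil => intro _; rfl
  | cons a l ih => intro prev; simp [divS, ih]

theorem mulS_spec (c : ℕ) (c' : ℚ) (hc : Rd c' (c : ZMod 101)) (l : List ℕ) : ∀ (prev : ℕ) (x : ℚ)
    (f : ℕ → ℚ), Rd x (prev : ZMod 101) →
    (∀ d < l.length, Rd (f d) ((l.getD d 0 : ℕ) : ZMod 101)) →
    ((0 < l.length → Rd (x + c' * f 0) (((mulS c prev l).getD 0 0 : ℕ) : ZMod 101)) ∧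
      ∀ d, d + 1 < l.length → Rd (f d + c' * f (d + 1))
        (((mulS c prev l).getD (d + 1) 0 : ℕ) : ZMod 101)) := by
  induction l with
  | nil =>
    intro prev x f _ _
    refine ⟨fun h => absurd h (by simp), fun d h => absurd h (by simp)⟩
  | cons a l ih =>
    intro prev x f hx hf
    have h0 : Rd (f 0) (a : ZMod 101) := by
      have := hf 0 (by simp)
      simpa using this
    have hih := ih a (f 0) (fun d => f (d + 1)) h0 (fun d hd => by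
      have := hf (d + 1) (by simpa using hd)
      simpa using this)
    refine ⟨fun _ => ?_, fun d hd => ?_⟩
    · have e : (((mulS c prev (a :: l)).getD 0 0 : ℕ) : ZMod 101) =
          (prev : ZMod 101) + (c : ZMod 101) * (a : ZMod 101) := by
        simp only [mulS, List.getD_cons_zero, ZMod.natCast_mod]
        push_cast
        rfl
      rw [e]
      exact hx.add (hc.mul h0)
    · have e : (mulS c prev (a :: l)).getD (d + 1) 0 = (mulS c a l).getD d 0 := by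
        simp only [mulS, List.getD_cons_succ]
      rw [e]
      cases d with
      | zero => exact hih.1 (by simpa using hd)
      | succ d => exact hih.2 d (by simpa using hd)

theorem divS_spec (c : ℕ) (c' : ℚ) (hc : Rd c' (c : ZMod 101)) (l : List ℕ) : ∀ (prev : ℕ) (x : ℚ)
    (f g : ℕ → ℚ), prev ≤ 101 → Rd x (prev : ZMod 101) →
    (∀ d < l.length, Rd (f d) ((l.getD d 0 : ℕ) : ZMod 101)) →
    (g 0 = (f 0 - x) * c') → (∀ d, g (d + 1) = (f (d + 1) - g d) * c') →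
    ∀ d, d < l.length → Rd (g d) (((divS c prev l).getD d 0 : ℕ) : ZMod 101) := by
  induction l with
  | nil =>
    intro prev x f g _ _ _ _ _ d h
    exact absurd h (by simp)
  | cons a l ih =>
    intro prev x f g hp hx hf hg0 hg d hd
    have h0 : Rd (f 0) (a : ZMod 101) := by
      have := hf 0 (by simp)
      simpa using this
    have hz : ((101 : ℕ) : ZMod 101) = 0 := ZMod.natCast_self 101
    have h1 : Rd (g 0) ((((a + (101 - prev)) * c % 101 : ℕ)) : ZMod 101) := by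
      rw [ZMod.natCast_mod, Nat.cast_mul, Nat.cast_add, Nat.cast_sub hp, hz, hg0]
      have := (h0.sub hx).mul hc
      rw [zero_sub, ← sub_eq_add_neg]
      exact this
    cases d with
    | zero =>
      simp only [divS, List.getD_cons_zero]
      exact h1
    | succ d =>
      simp only [divS, List.getD_cons_succ]
      exact ih _ (g 0) (fun d => f (d + 1)) (fun d => g (d + 1)) (Nat.mod_lt _ (by norm_num)).le h1
        (fun d hd => by
          have := hf (d + 1) (by simpa using hd)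
          simpa using this) (hg 0) (fun d => hg (d + 1)) d (by simpa using hd)

/-- `l` is the list of the first ten coefficients of `f` modulo `101` -/
def Rp (f : PowerSeries ℚ) (l : List ℕ) : Prop :=
  l.length = 10 ∧ ∀ d < 10, Rd (PowerSeries.coeff d f) ((l.getD d 0 : ℕ) : ZMod 101)

theorem Rp.mulS {f : PowerSeries ℚ} {l : List ℕ} (h : Rp f l) {c' : ℚ} {c : ℕ}
    (hc : Rd c' (c : ZMod 101)) :
    Rp (f * (PowerSeries.X + PowerSeries.C c')) (mulS c 0 l) := by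
  refine ⟨by rw [mulS_length, h.1], ?_⟩
  have key := mulS_spec c c' hc l 0 0 (fun d => PowerSeries.coeff d f)
    (by simpa using Rd.zero) (fun d hd => h.2 d (by rw [h.1] at hd; exact hd))
  intro d hd
  rw [mul_add, map_add, PowerSeries.coeff_mul_C]
  cases d with
  | zero =>
    have := key.1 (by rw [h.1]; norm_num)
    rw [PowerSeries.coeff_zero_mul_X, mul_comm]
    exact this
  | succ d =>
    have := key.2 d (by rw [h.1]; exact hd)
    rw [PowerSeries.coeff_succ_mul_X, mul_comm (PowerSeries.coeff (d + 1) f)]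
    exact this

theorem Rp.divS {f : PowerSeries ℚ} {l : List ℕ} (h : Rp f l) {a : ℚ} (ha : a ≠ 0) {c : ℕ}
    (hc : Rd a⁻¹ (c : ZMod 101)) :
    Rp (f * iv a) (divS c 0 l) := by
  refine ⟨by rw [divS_length, h.1], ?_⟩
  have hg : (f * iv a) * (PowerSeries.X + PowerSeries.C a) = f := by
    rw [mul_assoc, mul_comm (iv a), lin_mul_iv ha, mul_one]
  intro d hd
  refine divS_spec c a⁻¹ hc l 0 0 (fun d => PowerSeries.coeff d f)
    (fun d => PowerSeries.coeff d (f * iv a)) (by norm_num)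
    (by simpa using Rd.zero) (fun d hd => h.2 d (by rw [h.1] at hd; exact hd)) ?_ ?_ d
    (by rw [h.1]; exact hd)
  · have := congrArg (PowerSeries.coeff 0) hg
    rw [mul_add, map_add, PowerSeries.coeff_mul_C, PowerSeries.coeff_zero_mul_X] at this
    rw [← this]
    field_simp
    ring
  · intro d
    have := congrArg (PowerSeries.coeff (d + 1)) hg
    rw [mul_add, map_add, PowerSeries.coeff_mul_C, PowerSeries.coeff_succ_mul_X] at this
    rw [← this]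
    field_simp
    ring

/-- iteration -/
def it (f : List ℕ → List ℕ) : ℕ → List ℕ → List ℕ
  | 0, l => l
  | n + 1, l => it f n (f l)

theorem Rp.mulS_pow {c' : ℚ} {c : ℕ} (hc : Rd c' (c : ZMod 101)) (n : ℕ) :
    ∀ {f : PowerSeries ℚ} {l : List ℕ}, Rp f l →
    Rp (f * (PowerSeries.X + PowerSeries.C c') ^ n) (it (H5.mulS c 0) n l) := by
  induction n with
  | zero => intro f l h; simpa [it] using h
  | succ n ih =>
    intro f l h
    rw [pow_succ', ← mul_assoc]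
    exact ih (h.mulS hc)

theorem Rp.divS_pow {a : ℚ} (ha : a ≠ 0) {c : ℕ} (hc : Rd a⁻¹ (c : ZMod 101)) (n : ℕ) :
    ∀ {f : PowerSeries ℚ} {l : List ℕ}, Rp f l →
    Rp (f * iv a ^ n) (it (H5.divS c 0) n l) := by
  induction n with
  | zero => intro f l h; simpa [it] using h
  | succ n ih =>
    intro f l h
    rw [pow_succ', ← mul_assoc]
    exact ih (h.divS ha hc)

/-- inverse modulo 101 -/
def iv101 (k : ℕ) : ℕ := k ^ 99 % 101

theorem iv101_spec : ∀ k < 120, k ≠ 0 → k ≠ 101 → k * iv101 k % 101 = 1 := by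
  decide +kernel

theorem iv101_mul {k : ℕ} (h : k < 120) (h0 : k ≠ 0) (h1 : k ≠ 101) :
    (k : ZMod 101) * (iv101 k : ZMod 101) = 1 := by
  have := congrArg (fun z : ℕ => (z : ZMod 101)) (iv101_spec k h h0 h1)
  simp only [ZMod.natCast_mod, Nat.cast_mul, Nat.cast_one] at this
  exact this

/-- the other poles -/
def bs (j : ℕ) : List ℕ := (List.range' 3 12).filter (fun b => b ≠ j)

/-- the base list -/
def bl (j : ℕ) : List ℕ :=
  (bs j).foldl (fun l b => it (divS (iv101 (101 + b - j)) 0) 10 l)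
    (it (mulS (118 - j) 0) 5 (it (mulS (117 - j) 0) 5 (it (mulS (102 - j) 0) 5
      (it (mulS (101 - j) 0) 5 [1, 0, 0, 0, 0, 0, 0, 0, 0, 0]))))

/-- the base series -/
noncomputable def bser (j : ℕ) : PowerSeries ℚ :=
  ((PowerSeries.X + PowerSeries.C (-(j : ℚ))) * (PowerSeries.X + PowerSeries.C (1 - (j : ℚ))) *
    (PowerSeries.X + PowerSeries.C (16 - (j : ℚ))) * (PowerSeries.X + PowerSeries.C (17 - (j : ℚ)))) ^ 5 *
  (∏ b ∈ (Finset.Icc 3 14).erase j, iv ((b : ℚ) - j) ^ 10)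

theorem ser_eq (j e : ℕ) : ser j e =
    bser j * (PowerSeries.X + PowerSeries.C (-(j : ℚ))) ^ e := rfl

theorem rd_shift (j r c : ℕ) (hc : c = 101 + r) (hj : j ≤ 14) :
    Rd ((r : ℚ) - (j : ℚ)) ((c - j : ℕ) : ZMod 101) := by
  have h := Rd.int ((r : ℤ) - (j : ℤ))
  have e : (((r : ℤ) - (j : ℤ) : ℤ) : ZMod 101) = ((c - j : ℕ) : ZMod 101) := by
    rw [Nat.cast_sub (by omega), hc, Nat.cast_add, ZMod.natCast_self]
    push_cast
    ring
  rw [e] at h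
  push_cast at h
  exact h

theorem fold_rep (j : ℕ) (hj : j ≤ 14) (bl : List ℕ) : ∀ (f : PowerSeries ℚ) (l : List ℕ),
    (∀ b ∈ bl, b ≠ j ∧ b ≤ 14) → Rp f l →
    Rp (f * (bl.map (fun b : ℕ => iv ((b : ℚ) - j) ^ 10)).prod)
      (bl.foldl (fun l b => it (divS (iv101 (101 + b - j)) 0) 10 l) l) := by
  induction bl with
  | nil => intro f l _ h; simpa using h
  | cons b bl ih =>
    intro f l hb h
    rw [List.map_cons, List.prod_cons, List.foldl_cons, ← mul_assoc]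
    apply ih _ _ (fun b' hb' => hb b' (List.mem_cons_of_mem _ hb'))
    obtain ⟨h1, h2⟩ := hb b (List.mem_cons_self)
    have hne : (b : ℚ) - (j : ℚ) ≠ 0 := by
      rw [sub_ne_zero]
      exact_mod_cast h1
    apply Rp.divS_pow hne _ 10 h
    exact (rd_shift j b (101 + b) rfl hj).inv (iv101_mul (by omega) (by omega) (by omega))

theorem bser_rep (j : ℕ) (h3 : 3 ≤ j) (hj : j ≤ 14) : Rp (bser j) (bl j) := by
  have h0 : Rp (1 : PowerSeries ℚ) [1, 0, 0, 0, 0, 0, 0, 0, 0, 0] := by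
    refine ⟨rfl, ?_⟩
    intro d hd
    rw [PowerSeries.coeff_one]
    interval_cases d <;> simp [Rd.one, Rd.zero]
  have h1 := Rp.mulS_pow (rd_shift j 0 101 rfl hj) 5 h0
  have h2 := Rp.mulS_pow (rd_shift j 1 102 rfl hj) 5 h1
  have h4 := Rp.mulS_pow (rd_shift j 16 117 rfl hj) 5 h2
  have h5 := Rp.mulS_pow (rd_shift j 17 118 rfl hj) 5 h4
  have h6 := fold_rep j hj (bs j) _ _ (by
    intro b hb
    unfold bs at hb
    rw [List.mem_filter, List.mem_range'_1] at hb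
    refine ⟨by simpa using hb.2, by omega⟩) h5
  have e1 : bser j = 1 * (PowerSeries.X + PowerSeries.C (((0 : ℕ) : ℚ) - (j : ℚ))) ^ 5 *
      (PowerSeries.X + PowerSeries.C (((1 : ℕ) : ℚ) - (j : ℚ))) ^ 5 *
      (PowerSeries.X + PowerSeries.C (((16 : ℕ) : ℚ) - (j : ℚ))) ^ 5 *
      (PowerSeries.X + PowerSeries.C (((17 : ℕ) : ℚ) - (j : ℚ))) ^ 5 *
      ((bs j).map (fun b : ℕ => iv ((b : ℚ) - j) ^ 10)).prod := by
    have e2 : ((bs j).map (fun b : ℕ => iv ((b : ℚ) - j) ^ 10)).prod =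
        ∏ b ∈ (Finset.Icc 3 14).erase j, iv ((b : ℚ) - j) ^ 10 := by
      have e3 : (Finset.Icc 3 14).erase j = (bs j).toFinset := by
        ext b
        unfold bs
        rw [Finset.mem_erase, Finset.mem_Icc, List.mem_toFinset, List.mem_filter,
          List.mem_range'_1]
        simp only [decide_eq_true_eq, ne_eq]
        omega
      rw [e3, List.prod_toFinset]
      unfold bs
      exact (List.nodup_range').filter _
    rw [e2]
    unfold bser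
    rw [one_mul, mul_pow, mul_pow, mul_pow]
    push_cast
    rw [zero_sub]
  rw [e1]
  exact h6

theorem ser_rep (j : ℕ) (h3 : 3 ≤ j) (hj : j ≤ 14) (e : ℕ) :
    Rp (ser j e) (it (mulS (101 - j) 0) e (bl j)) := by
  rw [ser_eq]
  have := rd_shift j 0 101 rfl hj
  rw [Nat.cast_zero, zero_sub] at this
  exact Rp.mulS_pow this e (bser_rep j h3 hj)

/-! ### weights -/

/-- harmonic sums -/
def hsm (e n : ℕ) : ℕ := ((List.range n).map (fun l => (iv101 (l + 1)) ^ e)).sum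

/-- sign -/
def sg (d : ℕ) : ℕ := if d % 2 = 1 then 1 else 100

/-- weights -/
def wl (j : ℕ) : List ℕ := (List.range 10).map (fun d =>
  (Nat.choose (13 - d) 4 * (hsm (14 - d) (j - 2) + sg d * hsm (14 - d) (15 - j))) % 101)

theorem sum_range_list {R : Type*} [Semiring R] (f : ℕ → R) (n : ℕ) :
    ((List.range n).map f).sum = ∑ m ∈ Finset.range n, f m := by
  induction n with
  | zero => simp
  | succ n ih => rw [List.range_succ, List.map_append, List.sum_append, ih, Finset.sum_range_succ]; simp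

theorem hs_rd (e n : ℕ) (hn : n < 100) : Rd (hs e n) ((hsm e n : ℕ) : ZMod 101) := by
  unfold hs hsm
  rw [sum_range_list, Nat.cast_sum]
  apply Rd.sum
  intro l hl
  rw [Finset.mem_range] at hl
  rw [one_div, ← inv_pow, Nat.cast_pow]
  apply Rd.pow
  apply Rd.inv (a := ((l + 1 : ℕ) : ZMod 101))
  · have := Rd.nat (l + 1)
    rw [Nat.cast_add, Nat.cast_one] at this
    exact this
  · exact iv101_mul (by omega) (by omega) (by omega)

theorem wl_rd (j d : ℕ) (h3 : 3 ≤ j) (hj : j ≤ 14) (hd : d < 10) :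
    Rd (((Nat.choose (13 - d) 4 : ℕ) : ℚ) * (hs (14 - d) (j - 2) + (-1) ^ (11 - d) * hs (14 - d) (15 - j)))
      (((wl j).getD d 0 : ℕ) : ZMod 101) := by
  have e1 : (wl j).getD d 0 =
      (Nat.choose (13 - d) 4 * (hsm (14 - d) (j - 2) + sg d * hsm (14 - d) (15 - j))) % 101 := by
    unfold wl
    rw [List.getD_eq_getElem?_getD, List.getElem?_map, List.getElem?_range hd]
    rfl
  rw [e1, ZMod.natCast_mod, Nat.cast_mul, Nat.cast_add, Nat.cast_mul]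
  refine (Rd.nat _).mul ((hs_rd _ _ (by omega)).add (Rd.mul ?_ (hs_rd _ _ (by omega))))
  unfold sg
  split_ifs with h
  · have : Even (11 - d) := by
      rw [Nat.even_iff]; omega
    rw [this.neg_one_pow, Nat.cast_one]
    exact Rd.one
  · have : Odd (11 - d) := by
      rw [Nat.odd_iff]; omega
    rw [this.neg_one_pow]
    have h100 : (((100 : ℕ)) : ZMod 101) = -1 := by decide
    rw [h100]
    exact Rd.one.neg

/-- dot product -/
def dot : List ℕ → List ℕ → ℕ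
  | a :: l, b :: m => a * b + dot l m
  | _, _ => 0

theorem dot_eq (m : List ℕ) : ∀ l : List ℕ,
    dot l m = ∑ k ∈ Finset.range m.length, l.getD k 0 * m.getD k 0 := by
  induction m with
  | nil =>
    intro l
    cases l <;> simp [dot]
  | cons b m ih =>
    intro l
    cases l with
    | nil => simp [dot]
    | cons a l =>
      rw [dot, ih, List.length_cons, Finset.sum_range_succ']
      simp only [List.getD_cons_succ, List.getD_cons_zero]
      rw [add_comm]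

/-- values of the functional at the pole `j` -/
def run (c : ℕ) (w : List ℕ) : ℕ → List ℕ → List ℕ
  | 0, _ => []
  | n + 1, l => (dot w l) % 101 :: run c w n (mulS c 0 l)

theorem run_getD (c : ℕ) (w : List ℕ) (n : ℕ) : ∀ (l : List ℕ) (e : ℕ), e < n →
    (run c w n l).getD e 0 = dot w (it (mulS c 0) e l) % 101 := by
  induction n with
  | zero => intro l e h; exact absurd h (Nat.not_lt_zero _)
  | succ n ih =>
    intro l e h
    cases e with
    | zero => simp [run, it]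
    | succ e =>
      rw [run, List.getD_cons_succ, ih _ e (by omega)]
      rfl

/-- values of the functional at the pole `j` -/
def Rl (j : ℕ) : List ℕ := run (101 - j) (wl j) 99 (bl j)

theorem inner_rd (j e : ℕ) (h3 : 3 ≤ j) (hj : j ≤ 14) (he : e < 99) :
    Rd (∑ i ∈ Finset.Icc 1 10, ((Nat.choose (i + 3) 4 : ℕ) : ℚ) *
      PowerSeries.coeff (10 - i) (ser j e) * (hs (i + 4) (j - 2) + (-1) ^ (i + 1) * hs (i + 4) (15 - j)))
      (((Rl j).getD e 0 : ℕ) : ZMod 101) := by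
  have hr := ser_rep j h3 hj e
  have e1 : ∑ i ∈ Finset.Icc 1 10, ((Nat.choose (i + 3) 4 : ℕ) : ℚ) *
      PowerSeries.coeff (10 - i) (ser j e) * (hs (i + 4) (j - 2) + (-1) ^ (i + 1) * hs (i + 4) (15 - j)) =
      ∑ d ∈ Finset.range 10, (((Nat.choose (13 - d) 4 : ℕ) : ℚ) *
        (hs (14 - d) (j - 2) + (-1) ^ (11 - d) * hs (14 - d) (15 - j))) * PowerSeries.coeff d (ser j e) := by
    refine Finset.sum_nbij' (fun i => 10 - i) (fun d => 10 - d) ?_ ?_ ?_ ?_ ?_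
    · intro i hi
      rw [Finset.mem_Icc] at hi
      rw [Finset.mem_range]
      omega
    · intro d hd
      rw [Finset.mem_range] at hd
      rw [Finset.mem_Icc]
      omega
    · intro i hi
      rw [Finset.mem_Icc] at hi
      omega
    · intro d hd
      rw [Finset.mem_range] at hd
      omega
    · intro i hi
      rw [Finset.mem_Icc] at hi
      rw [show 13 - (10 - i) = i + 3 by omega, show 14 - (10 - i) = i + 4 by omega,
        show 11 - (10 - i) = i + 1 by omega]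
      ring
  have e2 : (((Rl j).getD e 0 : ℕ) : ZMod 101) =
      ∑ d ∈ Finset.range 10, (((wl j).getD d 0 : ℕ) : ZMod 101) *
        (((it (mulS (101 - j) 0) e (bl j)).getD d 0 : ℕ) : ZMod 101) := by
    unfold Rl
    rw [run_getD _ _ _ _ _ he, ZMod.natCast_mod, dot_eq, hr.1]
    push_cast
    rfl
  rw [e1, e2]
  apply Rd.sum
  intro d hd
  rw [Finset.mem_range] at hd
  exact (wl_rd j d h3 hj hd).mul (hr.2 d hd)

/-- the values of `Fm` modulo 101 -/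
def Fl : List ℕ := [
    0, 72, 89, 47, 52, 91, 43, 88, 35, 100, 70, 35, 73, 71, 86, 28, 78, 87, 4, 53, 30, 6, 4, 21,
    10, 6, 93, 43, 82, 44, 2, 74, 85, 94, 5, 79, 26, 37, 31, 54, 3, 10, 55, 73, 12, 28, 32, 99,
    58, 82, 89, 15, 88, 7, 8, 10, 28, 74, 8, 81, 37, 70, 48, 1, 26, 93, 37, 24, 0, 61, 12, 64,
    63, 83, 87, 41, 39, 23, 67, 63, 50, 91, 9, 53, 12, 27, 14, 48, 85, 58, 0, 82, 61, 62, 98,
    78, 81, 0, 80]

/-- the values at the poles -/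
def Rt : List (List ℕ) := [
  [
    59, 64, 49, 52, 67, 34, 75, 27, 68, 0, 93, 8, 23, 2, 9, 61, 64, 82, 42, 31, 28, 65, 87, 55,
    26, 94, 39, 18, 75, 79, 31, 95, 33, 11, 81, 58, 24, 39, 47, 99, 85, 63, 73, 42, 50, 14, 32,
    30, 86, 97, 15, 65, 64, 2, 73, 43, 27, 17, 41, 9, 17, 1, 8, 58, 59, 78, 56, 43, 99, 57, 81,
    80, 88, 11, 2, 48, 13, 24, 60, 73, 86, 34, 58, 6, 89, 40, 41, 59, 29, 71, 86, 76, 71, 52,
    23, 22, 3, 18, 51],
  [
    74, 9, 19, 31, 83, 39, 7, 32, 17, 2, 85, 44, 8, 58, 26, 9, 96, 33, 8, 31, 96, 40, 26, 47,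
    86, 75, 76, 59, 55, 49, 57, 73, 80, 63, 77, 45, 88, 17, 91, 82, 18, 95, 29, 37, 51, 68, 21,
    26, 78, 27, 94, 2, 26, 4, 99, 39, 79, 8, 45, 88, 64, 24, 59, 13, 20, 67, 13, 46, 22, 57, 40,
    63, 6, 63, 12, 68, 44, 46, 58, 30, 88, 54, 84, 25, 86, 43, 26, 4, 79, 30, 42, 91, 28, 67,
    82, 4, 1, 48, 22],
  [
    45, 79, 22, 41, 68, 4, 50, 2, 84, 22, 72, 54, 88, 47, 60, 90, 84, 60, 28, 59, 53, 78, 59,
    68, 86, 51, 23, 7, 19, 46, 89, 40, 26, 15, 38, 87, 96, 19, 90, 13, 70, 36, 91, 9, 31, 36,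
    90, 17, 48, 83, 42, 76, 85, 83, 64, 82, 92, 32, 32, 31, 33, 26, 64, 99, 47, 85, 99, 79, 20,
    60, 43, 28, 67, 89, 82, 74, 33, 25, 12, 28, 31, 5, 21, 60, 54, 91, 91, 22, 26, 54, 79, 97,
    81, 38, 40, 6, 63, 68, 55],
  [
    49, 65, 55, 90, 65, 36, 22, 38, 98, 9, 72, 31, 48, 58, 32, 27, 20, 79, 72, 35, 11, 97, 69,
    95, 73, 29, 82, 91, 34, 5, 88, 75, 76, 34, 63, 58, 76, 71, 93, 58, 7, 48, 74, 69, 65, 63,
    65, 1, 96, 75, 63, 81, 75, 39, 66, 98, 90, 86, 41, 77, 19, 82, 28, 25, 47, 41, 84, 30, 68,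
    92, 14, 72, 19, 5, 2, 3, 74, 94, 94, 26, 40, 32, 40, 29, 43, 56, 84, 62, 15, 80, 51, 17, 26,
    70, 18, 60, 11, 43, 70],
  [
    43, 11, 77, 46, 35, 64, 96, 77, 57, 31, 12, 54, 44, 95, 85, 66, 11, 100, 41, 10, 81, 0, 47,
    72, 35, 91, 15, 11, 23, 17, 26, 43, 48, 87, 87, 22, 99, 54, 57, 24, 49, 67, 70, 78, 14, 25,
    5, 51, 22, 88, 28, 41, 95, 74, 16, 34, 100, 77, 71, 4, 42, 21, 87, 59, 23, 50, 67, 77, 43,
    32, 47, 5, 18, 26, 42, 51, 46, 30, 62, 74, 20, 96, 71, 37, 82, 41, 70, 85, 74, 61, 50, 7,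
    71, 27, 95, 13, 48, 64, 49],
  [
    92, 93, 20, 86, 45, 61, 43, 75, 77, 92, 41, 85, 82, 39, 65, 47, 50, 61, 20, 12, 89, 69, 28,
    66, 91, 15, 30, 94, 1, 44, 23, 7, 32, 79, 6, 14, 89, 91, 20, 86, 20, 60, 60, 62, 9, 98, 62,
    82, 73, 5, 19, 15, 72, 26, 43, 2, 68, 47, 6, 12, 13, 68, 99, 50, 0, 73, 71, 99, 57, 2, 51,
    62, 28, 29, 17, 73, 11, 42, 1, 22, 85, 25, 85, 50, 94, 96, 49, 53, 20, 80, 48, 42, 31, 48,
    7, 45, 79, 89, 35],
  [
    9, 41, 25, 49, 35, 45, 44, 67, 88, 81, 75, 56, 36, 81, 35, 13, 100, 6, 84, 45, 66, 38, 82,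
    6, 70, 10, 44, 89, 2, 2, 40, 22, 31, 29, 89, 100, 73, 35, 92, 24, 7, 63, 100, 31, 96, 1, 10,
    49, 88, 18, 28, 76, 12, 10, 31, 94, 65, 66, 8, 57, 91, 1, 57, 57, 22, 36, 84, 63, 53, 46,
    68, 19, 98, 35, 51, 99, 77, 47, 33, 36, 40, 16, 16, 19, 83, 4, 74, 95, 74, 100, 1, 66, 18,
    81, 75, 96, 7, 68, 93],
  [
    58, 35, 50, 44, 97, 18, 62, 29, 23, 11, 100, 7, 42, 23, 63, 29, 92, 90, 87, 67, 49, 48, 33,
    2, 58, 24, 57, 73, 38, 10, 65, 55, 9, 88, 45, 0, 93, 33, 25, 27, 41, 54, 53, 70, 5, 8, 62,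
    62, 39, 12, 2, 81, 20, 76, 71, 26, 88, 83, 66, 33, 70, 10, 45, 23, 30, 80, 27, 0, 46, 44,
    14, 69, 100, 54, 67, 15, 74, 79, 72, 48, 21, 29, 91, 7, 4, 2, 60, 88, 100, 62, 50, 100, 4,
    76, 56, 94, 100, 62, 9],
  [
    52, 90, 37, 17, 9, 48, 28, 26, 69, 8, 27, 78, 51, 62, 55, 69, 77, 77, 43, 95, 97, 20, 47,
    100, 46, 97, 49, 2, 7, 75, 62, 88, 42, 86, 51, 90, 17, 33, 22, 30, 2, 6, 33, 13, 86, 67, 9,
    22, 3, 39, 45, 98, 74, 35, 23, 57, 68, 61, 66, 9, 64, 34, 44, 42, 92, 97, 41, 97, 71, 14,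
    42, 79, 16, 63, 23, 38, 63, 48, 32, 65, 50, 57, 39, 10, 1, 83, 85, 46, 24, 26, 100, 20, 54,
    35, 68, 51, 60, 15, 33],
  [
    56, 36, 43, 63, 33, 11, 0, 31, 93, 89, 85, 80, 63, 82, 13, 76, 83, 75, 7, 84, 32, 39, 88,
    22, 90, 47, 61, 34, 96, 51, 2, 99, 25, 77, 7, 35, 96, 37, 18, 6, 75, 92, 19, 16, 99, 40, 48,
    38, 28, 34, 58, 48, 87, 38, 86, 22, 36, 15, 58, 30, 14, 34, 97, 20, 9, 85, 52, 22, 90, 93,
    49, 62, 5, 54, 38, 10, 26, 92, 43, 2, 67, 0, 9, 45, 3, 31, 24, 78, 83, 47, 53, 34, 22, 32,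
    79, 69, 64, 12, 69],
  [
    27, 55, 4, 79, 34, 14, 3, 85, 90, 83, 47, 0, 87, 91, 62, 32, 64, 27, 70, 32, 9, 57, 87, 52,
    12, 8, 79, 7, 85, 28, 67, 95, 99, 2, 80, 98, 11, 62, 70, 38, 37, 88, 80, 17, 62, 60, 7, 68,
    22, 10, 69, 76, 1, 92, 92, 18, 66, 44, 55, 25, 86, 23, 94, 30, 67, 17, 55, 46, 54, 59, 45,
    72, 53, 78, 8, 1, 65, 26, 45, 60, 47, 73, 9, 65, 42, 73, 76, 14, 14, 72, 53, 18, 8, 10, 32,
    29, 33, 78, 35],
  [
    42, 57, 15, 62, 84, 40, 32, 29, 9, 78, 29, 74, 62, 99, 15, 59, 90, 31, 100, 52, 66, 49, 50,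
    0, 24, 59, 59, 78, 89, 55, 54, 42, 20, 42, 78, 21, 20, 78, 51, 65, 91, 25, 71, 89, 26, 98,
    62, 61, 66, 36, 54, 33, 8, 19, 35, 81, 1, 97, 8, 49, 56, 10, 78, 28, 63, 6, 21, 81, 84, 90,
    100, 32, 45, 16, 74, 85, 41, 30, 27, 79, 82, 94, 74, 99, 13, 19, 13, 53, 84, 67, 94, 57, 30,
    8, 34, 39, 56, 41, 5]]

theorem Rl3 : Rl 3 = Rt.getD 0 [] := by decide +kernel

theorem Rl4 : Rl 4 = Rt.getD 1 [] := by decide +kernel

theorem Rl5 : Rl 5 = Rt.getD 2 [] := by decide +kernel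

theorem Rl6 : Rl 6 = Rt.getD 3 [] := by decide +kernel

theorem Rl7 : Rl 7 = Rt.getD 4 [] := by decide +kernel

theorem Rl8 : Rl 8 = Rt.getD 5 [] := by decide +kernel

theorem Rl9 : Rl 9 = Rt.getD 6 [] := by decide +kernel

theorem Rl10 : Rl 10 = Rt.getD 7 [] := by decide +kernel

theorem Rl11 : Rl 11 = Rt.getD 8 [] := by decide +kernel

theorem Rl12 : Rl 12 = Rt.getD 9 [] := by decide +kernel

theorem Rl13 : Rl 13 = Rt.getD 10 [] := by decide +kernel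

theorem Rl14 : Rl 14 = Rt.getD 11 [] := by decide +kernel

theorem hF : ((List.range 99).all fun e =>
    ((Rt.map (fun l => l.getD e 0)).sum + Fl.getD e 0) % 101 == 0) = true := by
  decide +kernel

set_option maxRecDepth 100000 in
/-- the inverse matrix modulo 101 -/
def Nl : List (List ℕ) := [
  [
    90, 44, 6, 24, 88, 8, 15, 10, 94, 24, 10, 33, 36, 48, 34, 89, 97, 2, 33, 5, 50, 49, 70, 22,
    88, 19, 32, 74, 13, 89, 95, 91, 60, 69, 21, 61, 83, 37, 69, 56, 3, 15, 55, 67, 92, 55, 8,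
    21, 49, 36],
  [
    44, 49, 15, 31, 65, 61, 70, 98, 12, 58, 32, 73, 78, 58, 16, 38, 60, 14, 28, 48, 4, 86, 78,
    91, 12, 77, 81, 17, 46, 28, 1, 0, 37, 75, 11, 91, 44, 24, 69, 58, 72, 65, 55, 44, 14, 84,
    87, 8, 2, 8],
  [
    6, 15, 17, 93, 76, 55, 36, 81, 97, 44, 61, 59, 42, 25, 13, 93, 51, 20, 85, 4, 85, 77, 58,
    86, 45, 12, 59, 53, 58, 66, 6, 91, 6, 28, 15, 76, 45, 8, 37, 25, 14, 92, 4, 18, 20, 99, 14,
    92, 5, 72],
  [
    24, 31, 93, 14, 7, 87, 36, 4, 93, 6, 33, 4, 71, 80, 4, 93, 10, 57, 93, 82, 79, 0, 90, 7, 54,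
    74, 23, 32, 88, 34, 44, 1, 79, 76, 31, 55, 74, 68, 90, 30, 86, 23, 53, 74, 92, 1, 77, 1, 78,
    58],
  [
    88, 65, 76, 7, 30, 87, 80, 60, 96, 61, 37, 58, 30, 61, 21, 54, 43, 69, 72, 85, 87, 95, 73,
    62, 74, 10, 7, 8, 88, 32, 54, 23, 92, 79, 92, 71, 45, 24, 94, 89, 30, 82, 8, 24, 82, 21, 91,
    77, 16, 99],
  [
    8, 61, 55, 87, 87, 84, 25, 24, 84, 62, 26, 6, 81, 41, 98, 58, 25, 14, 72, 83, 53, 52, 41,
    63, 17, 76, 26, 63, 21, 32, 60, 6, 95, 91, 84, 40, 40, 3, 12, 73, 18, 70, 1, 97, 82, 71, 22,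
    58, 74, 95],
  [
    15, 70, 36, 36, 80, 25, 89, 77, 69, 18, 21, 36, 32, 15, 88, 82, 1, 85, 39, 57, 0, 69, 12,
    15, 91, 36, 54, 98, 35, 31, 28, 5, 53, 67, 54, 23, 42, 25, 95, 1, 87, 84, 97, 39, 54, 59,
    71, 8, 40, 7],
  [
    10, 98, 81, 4, 60, 24, 77, 63, 88, 13, 46, 33, 97, 60, 64, 16, 30, 85, 22, 30, 45, 83, 45,
    60, 94, 32, 61, 20, 32, 8, 95, 16, 89, 17, 68, 70, 55, 46, 75, 42, 41, 55, 34, 35, 75, 47,
    81, 36, 36, 11],
  [
    94, 12, 97, 93, 96, 84, 69, 88, 3, 57, 10, 57, 55, 78, 58, 15, 40, 40, 67, 67, 87, 85, 7,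
    35, 52, 27, 62, 92, 61, 23, 13, 94, 22, 44, 68, 24, 79, 10, 92, 94, 41, 12, 20, 42, 81, 87,
    34, 35, 23, 15],
  [
    24, 58, 44, 6, 61, 62, 18, 13, 57, 97, 73, 15, 67, 76, 60, 89, 17, 16, 64, 16, 11, 28, 31,
    85, 0, 24, 34, 93, 9, 11, 80, 59, 50, 73, 6, 91, 80, 23, 27, 70, 45, 10, 57, 60, 34, 4, 4,
    75, 96, 76],
  [
    10, 32, 61, 33, 37, 26, 21, 46, 10, 73, 70, 66, 85, 61, 11, 75, 74, 4, 18, 28, 23, 63, 2,
    16, 56, 83, 98, 11, 33, 82, 18, 73, 19, 24, 53, 90, 21, 2, 3, 50, 64, 18, 14, 73, 45, 69,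
    21, 20, 61, 57],
  [
    33, 73, 59, 4, 58, 6, 36, 33, 57, 15, 66, 30, 58, 95, 74, 92, 71, 81, 50, 6, 81, 84, 23, 88,
    63, 37, 66, 41, 74, 80, 36, 1, 66, 16, 5, 100, 34, 13, 87, 64, 21, 77, 33, 55, 52, 2, 97,
    78, 10, 17],
  [
    36, 78, 42, 71, 30, 81, 32, 97, 55, 67, 85, 58, 71, 90, 3, 24, 68, 77, 48, 12, 75, 48, 82,
    27, 51, 50, 45, 63, 14, 13, 58, 93, 20, 20, 36, 4, 60, 71, 0, 26, 63, 81, 74, 100, 58, 54,
    63, 20, 91, 42],
  [
    48, 58, 25, 80, 61, 41, 15, 60, 78, 76, 61, 95, 90, 37, 71, 8, 14, 33, 91, 86, 47, 99, 53,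
    92, 65, 23, 8, 65, 79, 15, 59, 33, 68, 75, 78, 90, 100, 37, 89, 100, 22, 73, 23, 3, 81, 1,
    37, 7, 39, 72],
  [
    34, 16, 13, 4, 21, 98, 88, 64, 58, 60, 11, 74, 3, 71, 61, 80, 65, 13, 76, 85, 28, 35, 83,
    54, 16, 0, 40, 21, 29, 13, 27, 5, 15, 48, 51, 88, 59, 8, 1, 97, 42, 58, 56, 51, 96, 9, 67,
    25, 61, 62],
  [
    89, 38, 93, 93, 54, 58, 82, 16, 15, 89, 75, 92, 24, 8, 80, 24, 99, 48, 52, 1, 81, 94, 4, 26,
    62, 87, 90, 3, 78, 75, 20, 74, 15, 23, 94, 61, 14, 69, 58, 88, 18, 100, 72, 66, 21, 18, 25,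
    30, 99, 21],
  [
    97, 60, 51, 10, 43, 25, 1, 30, 40, 17, 74, 71, 68, 14, 65, 99, 96, 94, 97, 52, 43, 80, 33,
    85, 94, 28, 41, 16, 41, 48, 8, 95, 6, 95, 4, 72, 63, 40, 81, 99, 91, 30, 15, 50, 95, 70, 4,
    61, 70, 36],
  [
    2, 14, 20, 57, 69, 14, 85, 85, 40, 16, 4, 81, 77, 33, 13, 48, 94, 18, 14, 87, 61, 86, 98,
    55, 12, 29, 22, 47, 55, 3, 49, 60, 60, 11, 36, 57, 67, 21, 36, 39, 39, 61, 51, 36, 26, 37,
    17, 74, 80, 55],
  [
    33, 28, 85, 93, 72, 72, 39, 22, 67, 64, 18, 50, 48, 91, 76, 52, 97, 14, 35, 16, 17, 38, 80,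
    1, 16, 82, 18, 55, 71, 36, 50, 79, 5, 8, 39, 52, 60, 17, 46, 70, 73, 60, 35, 20, 60, 0, 39,
    42, 50, 19],
  [
    5, 48, 4, 82, 85, 83, 57, 30, 67, 16, 28, 6, 12, 86, 85, 1, 52, 87, 16, 61, 48, 61, 62, 53,
    85, 88, 55, 76, 82, 79, 61, 8, 55, 58, 99, 35, 41, 38, 10, 71, 33, 18, 70, 87, 95, 27, 26,
    70, 49, 88],
  [
    50, 4, 85, 79, 87, 53, 0, 45, 87, 11, 23, 81, 75, 47, 28, 81, 43, 61, 17, 48, 54, 55, 24,
    98, 66, 77, 67, 30, 87, 11, 50, 29, 80, 16, 8, 63, 84, 88, 25, 7, 65, 26, 9, 22, 84, 9, 11,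
    73, 67, 100],
  [
    49, 86, 77, 0, 95, 52, 69, 83, 85, 28, 63, 84, 48, 99, 35, 94, 80, 86, 38, 61, 55, 63, 7,
    45, 61, 51, 5, 14, 89, 18, 77, 8, 17, 22, 85, 46, 38, 69, 88, 45, 76, 95, 26, 74, 21, 19,
    80, 94, 100, 0],
  [
    70, 78, 58, 90, 73, 41, 12, 45, 7, 31, 2, 23, 82, 53, 83, 4, 33, 98, 80, 62, 24, 7, 81, 98,
    100, 25, 11, 87, 54, 55, 88, 31, 59, 55, 33, 36, 30, 76, 14, 41, 75, 40, 33, 66, 60, 51, 32,
    1, 85, 81],
  [
    22, 91, 86, 7, 62, 63, 15, 60, 35, 85, 16, 88, 27, 92, 54, 26, 85, 55, 1, 53, 98, 45, 98,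
    46, 86, 5, 86, 38, 0, 86, 59, 41, 4, 59, 2, 5, 50, 48, 80, 56, 69, 9, 0, 73, 9, 12, 90, 58,
    51, 13],
  [
    88, 12, 45, 54, 74, 17, 91, 94, 52, 0, 56, 63, 51, 65, 16, 62, 94, 12, 16, 85, 66, 61, 100,
    86, 43, 93, 97, 3, 47, 52, 100, 57, 20, 23, 74, 69, 75, 24, 58, 11, 6, 30, 11, 59, 64, 54,
    20, 1, 76, 3],
  [
    19, 77, 12, 74, 10, 76, 36, 32, 27, 24, 83, 37, 50, 23, 0, 87, 28, 29, 82, 88, 77, 51, 25,
    5, 93, 83, 46, 23, 48, 56, 83, 84, 48, 48, 70, 64, 7, 18, 10, 17, 22, 50, 19, 84, 48, 84,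
    28, 5, 51, 60],
  [
    32, 81, 59, 23, 7, 26, 54, 61, 62, 34, 98, 66, 45, 8, 40, 90, 41, 22, 18, 55, 67, 5, 11, 86,
    97, 46, 50, 50, 9, 67, 68, 74, 9, 57, 71, 4, 70, 83, 84, 0, 74, 8, 91, 1, 17, 85, 89, 70, 7,
    60],
  [
    74, 17, 53, 32, 8, 63, 98, 20, 92, 93, 11, 41, 63, 65, 21, 3, 16, 47, 55, 76, 30, 14, 87,
    38, 3, 23, 50, 72, 81, 90, 29, 67, 23, 68, 71, 58, 42, 64, 52, 69, 92, 99, 25, 34, 70, 59,
    30, 57, 34, 18],
  [
    13, 46, 58, 88, 88, 21, 35, 32, 61, 9, 33, 74, 14, 79, 29, 78, 41, 55, 71, 82, 87, 89, 54,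
    0, 47, 48, 9, 81, 81, 53, 0, 19, 48, 45, 99, 93, 93, 56, 25, 27, 38, 55, 98, 50, 1, 7, 75,
    42, 35, 97],
  [
    89, 28, 66, 34, 32, 32, 31, 8, 23, 11, 82, 80, 13, 15, 13, 75, 48, 3, 36, 79, 11, 18, 55,
    86, 52, 56, 67, 90, 53, 71, 57, 57, 87, 96, 70, 93, 63, 7, 100, 2, 31, 0, 42, 7, 8, 64, 98,
    84, 65, 61],
  [
    95, 1, 6, 44, 54, 60, 28, 95, 13, 80, 18, 36, 58, 59, 27, 20, 8, 49, 50, 61, 50, 77, 88, 59,
    100, 83, 68, 29, 0, 57, 78, 9, 17, 30, 85, 95, 60, 0, 55, 7, 99, 35, 17, 25, 19, 2, 43, 76,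
    56, 19],
  [
    91, 0, 91, 1, 23, 6, 5, 16, 94, 59, 73, 1, 93, 33, 5, 74, 95, 60, 79, 8, 29, 8, 31, 41, 57,
    84, 74, 67, 19, 57, 9, 11, 45, 9, 52, 6, 96, 95, 28, 84, 14, 65, 0, 69, 90, 66, 19, 73, 77,
    22],
  [
    60, 37, 6, 79, 92, 95, 53, 89, 22, 50, 19, 66, 20, 68, 15, 15, 6, 60, 5, 55, 80, 17, 59, 4,
    20, 48, 9, 23, 48, 87, 17, 45, 75, 92, 48, 46, 71, 24, 50, 34, 27, 65, 6, 39, 87, 36, 71,
    17, 36, 68],
  [
    69, 75, 28, 76, 79, 91, 67, 17, 44, 73, 24, 16, 20, 75, 48, 23, 95, 11, 8, 58, 16, 22, 55,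
    59, 23, 48, 57, 68, 45, 96, 30, 9, 92, 21, 74, 6, 29, 96, 47, 14, 30, 18, 73, 7, 93, 29, 1,
    70, 65, 72],
  [
    21, 11, 15, 31, 92, 84, 54, 68, 68, 6, 53, 5, 36, 78, 51, 94, 4, 36, 39, 99, 8, 85, 33, 2,
    74, 70, 71, 71, 99, 70, 85, 52, 48, 74, 83, 12, 28, 61, 60, 15, 70, 38, 86, 16, 40, 33, 35,
    58, 30, 99],
  [
    61, 91, 76, 55, 71, 40, 23, 70, 24, 91, 90, 100, 4, 90, 88, 61, 72, 57, 52, 35, 63, 46, 36,
    5, 69, 64, 4, 58, 93, 93, 95, 6, 46, 6, 12, 66, 56, 42, 53, 41, 90, 63, 46, 75, 42, 99, 15,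
    22, 33, 69],
  [
    83, 44, 45, 74, 45, 40, 42, 55, 79, 80, 21, 34, 60, 100, 59, 14, 63, 67, 60, 41, 84, 38, 30,
    50, 75, 7, 70, 42, 93, 63, 60, 96, 71, 29, 28, 56, 36, 54, 65, 92, 98, 29, 53, 8, 26, 10,
    75, 92, 82, 92],
  [
    37, 24, 8, 68, 24, 3, 25, 46, 10, 23, 2, 13, 71, 37, 8, 69, 40, 21, 17, 38, 88, 69, 76, 48,
    24, 18, 83, 64, 56, 7, 0, 95, 24, 96, 61, 42, 54, 70, 47, 40, 14, 33, 5, 36, 29, 14, 49, 65,
    40, 36],
  [
    69, 69, 37, 90, 94, 12, 95, 75, 92, 27, 3, 87, 0, 89, 1, 58, 81, 36, 46, 10, 25, 88, 14, 80,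
    58, 10, 84, 52, 25, 100, 55, 28, 50, 47, 60, 53, 65, 47, 17, 59, 31, 11, 35, 100, 51, 55,
    49, 92, 5, 37],
  [
    56, 58, 25, 30, 89, 73, 1, 42, 94, 70, 50, 64, 26, 100, 97, 88, 99, 39, 70, 71, 7, 45, 41,
    56, 11, 17, 0, 69, 27, 2, 7, 84, 34, 14, 15, 41, 92, 40, 59, 46, 61, 91, 75, 64, 72, 78, 18,
    85, 97, 75],
  [
    3, 72, 14, 86, 30, 18, 87, 41, 41, 45, 64, 21, 63, 22, 42, 18, 91, 39, 73, 33, 65, 76, 75,
    69, 6, 22, 74, 92, 38, 31, 99, 14, 27, 30, 70, 90, 98, 14, 31, 61, 27, 44, 42, 27, 3, 53,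
    92, 71, 34, 75],
  [
    15, 65, 92, 23, 82, 70, 84, 55, 12, 10, 18, 77, 81, 73, 58, 100, 30, 61, 60, 18, 26, 95, 40,
    9, 30, 50, 8, 99, 55, 0, 35, 65, 65, 18, 38, 63, 29, 33, 11, 91, 44, 16, 49, 97, 91, 90, 21,
    53, 26, 65],
  [
    55, 55, 4, 53, 8, 1, 97, 34, 20, 57, 14, 33, 74, 23, 56, 72, 15, 51, 35, 70, 9, 26, 33, 0,
    11, 19, 91, 25, 98, 42, 17, 0, 6, 73, 86, 46, 53, 5, 35, 75, 42, 49, 44, 98, 0, 50, 7, 0, 9,
    31],
  [
    67, 44, 18, 74, 24, 97, 39, 35, 42, 60, 73, 55, 100, 3, 51, 66, 50, 36, 20, 87, 22, 74, 66,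
    73, 59, 84, 1, 34, 50, 7, 25, 69, 39, 7, 16, 75, 8, 36, 100, 64, 27, 97, 98, 20, 72, 72, 1,
    35, 19, 86],
  [
    92, 14, 20, 92, 82, 82, 54, 75, 81, 34, 45, 52, 58, 81, 96, 21, 95, 26, 60, 95, 84, 21, 60,
    9, 64, 48, 17, 70, 1, 8, 19, 90, 87, 93, 40, 42, 26, 29, 51, 72, 3, 91, 0, 72, 58, 51, 48,
    21, 15, 88],
  [
    55, 84, 99, 1, 21, 71, 59, 47, 87, 4, 69, 2, 54, 1, 9, 18, 70, 37, 0, 27, 9, 19, 51, 12, 54,
    84, 85, 59, 7, 64, 2, 66, 36, 29, 33, 99, 10, 14, 55, 78, 53, 90, 50, 72, 51, 98, 36, 96,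
    52, 56],
  [
    8, 87, 14, 77, 91, 22, 71, 81, 34, 4, 21, 97, 63, 37, 67, 25, 4, 17, 39, 26, 11, 80, 32, 90,
    20, 28, 89, 30, 75, 98, 43, 19, 71, 1, 35, 15, 75, 49, 49, 18, 92, 21, 7, 1, 48, 36, 60, 44,
    32, 71],
  [
    21, 8, 92, 1, 77, 58, 8, 36, 35, 75, 20, 78, 20, 7, 25, 30, 61, 74, 42, 70, 73, 94, 1, 58,
    1, 5, 70, 57, 42, 84, 76, 73, 17, 70, 58, 22, 92, 65, 92, 85, 71, 53, 0, 35, 21, 96, 44, 96,
    50, 100],
  [
    49, 2, 5, 78, 16, 74, 40, 36, 23, 96, 61, 10, 91, 39, 61, 99, 70, 80, 50, 49, 67, 100, 85,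
    51, 76, 51, 7, 34, 35, 65, 56, 77, 36, 65, 30, 33, 82, 40, 5, 97, 34, 26, 9, 19, 15, 52, 32,
    50, 19, 25],
  [
    36, 8, 72, 58, 99, 95, 7, 11, 15, 76, 57, 17, 42, 72, 62, 21, 36, 55, 19, 88, 100, 0, 81,
    13, 3, 60, 60, 18, 97, 61, 19, 22, 68, 72, 99, 69, 92, 36, 37, 75, 75, 65, 31, 86, 88, 56,
    71, 100, 25, 0]]

theorem hN : ((List.range 50).all fun i => (List.range 50).all fun k =>
    (dot (Fl.drop i) (Nl.getD k [])) % 101 == if i = k then 1 else 0) = true := by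
  decide +kernel

theorem hNlen : ((List.range 50).all fun k => (Nl.getD k []).length == 50) = true := by
  decide +kernel

theorem Fm_rd (e : ℕ) (he : e < 99) : Rd (Fm e) ((Fl.getD e 0 : ℕ) : ZMod 101) := by
  have h1 : Rd (∑ j ∈ Finset.Icc 3 14, ∑ i ∈ Finset.Icc 1 10, ((Nat.choose (i + 3) 4 : ℕ) : ℚ) *
      PowerSeries.coeff (10 - i) (ser j e) * (hs (i + 4) (j - 2) + (-1) ^ (i + 1) * hs (i + 4) (15 - j)))
      (∑ j ∈ Finset.Icc 3 14, (((Rl j).getD e 0 : ℕ) : ZMod 101)) := by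
    apply Rd.sum
    intro j hj
    rw [Finset.mem_Icc] at hj
    exact inner_rd j e hj.1 hj.2 he
  have h2 := h1.neg
  have h3 := List.all_eq_true.1 hF e (List.mem_range.2 he)
  have h4 : ((Rt.map (fun l => l.getD e 0)).sum + Fl.getD e 0) % 101 = 0 := by simpa using h3
  have h5 : (((Rt.map (fun l => l.getD e 0)).sum + Fl.getD e 0 : ℕ) : ZMod 101) = 0 := by
    rw [← ZMod.natCast_mod, h4, Nat.cast_zero]
  have h6 : (∑ j ∈ Finset.Icc 3 14, (Rl j).getD e 0) = (Rt.map (fun l => l.getD e 0)).sum := by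
    have e0 : (Finset.Icc 3 14 : Finset ℕ) = {3, 4, 5, 6, 7, 8, 9, 10, 11, 12, 13, 14} := by decide
    rw [e0]
    repeat rw [Finset.sum_insert (by decide)]
    rw [Finset.sum_singleton, Rl3, Rl4, Rl5, Rl6, Rl7, Rl8, Rl9, Rl10, Rl11, Rl12, Rl13, Rl14]
    rfl
  have h7 : -(∑ j ∈ Finset.Icc 3 14, (((Rl j).getD e 0 : ℕ) : ZMod 101)) =
      ((Fl.getD e 0 : ℕ) : ZMod 101) := by
    rw [← Nat.cast_sum, h6]
    rw [Nat.cast_add] at h5
    exact neg_eq_of_add_eq_zero_right h5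
  rw [h7] at h2
  exact h2

end H5

theorem H5_local : (Matrix.of fun l l' : Fin 50 => Fm (l.1 + l'.1)).det ≠ 0 := by
  have : Fact (Nat.Prime 101) := ⟨H5.prime101⟩
  let A : Matrix (Fin 50) (Fin 50) (ZMod 101) := fun i j => ((H5.Fl.getD (i.1 + j.1) 0 : ℕ) : ZMod 101)
  let B : Matrix (Fin 50) (Fin 50) (ZMod 101) := fun j k =>
    (((H5.Nl.getD k.1 []).getD j.1 0 : ℕ) : ZMod 101)
  have hAB : A * B = 1 := by
    ext i k
    have h1 := List.all_eq_true.1 (List.all_eq_true.1 H5.hN i.1 (List.mem_range.2 i.2)) k.1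
      (List.mem_range.2 k.2)
    have h2 : (H5.dot (H5.Fl.drop i.1) (H5.Nl.getD k.1 [])) % 101 = if i.1 = k.1 then 1 else 0 := by
      simpa using h1
    have h3 : (H5.Nl.getD k.1 []).length = 50 := by
      have := List.all_eq_true.1 H5.hNlen k.1 (List.mem_range.2 k.2)
      simpa using this
    have h4 := congrArg (fun z : ℕ => (z : ZMod 101)) h2
    simp only [ZMod.natCast_mod] at h4
    rw [H5.dot_eq, h3, Nat.cast_sum] at h4
    rw [Matrix.mul_apply, ← Fin.sum_univ_eq_sum_range (fun j =>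
      ((((H5.Fl.drop i.1).getD j 0 * (H5.Nl.getD k.1 []).getD j 0 : ℕ)) : ZMod 101)) 50] at *
    have h5 : ∀ j : Fin 50, A i j * B j k =
        ((((H5.Fl.drop i.1).getD j.1 0 * (H5.Nl.getD k.1 []).getD j.1 0 : ℕ)) : ZMod 101) := by
      intro j
      have : (H5.Fl.drop i.1).getD j.1 0 = H5.Fl.getD (i.1 + j.1) 0 := by
        rw [List.getD_eq_getElem?_getD, List.getD_eq_getElem?_getD, List.getElem?_drop]
      rw [this, Nat.cast_mul]
    rw [Finset.sum_congr rfl (fun j _ => h5 j), h4]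
    by_cases hik : i = k
    · subst hik; simp
    · have : i.1 ≠ k.1 := fun h => hik (Fin.ext h)
      simp [hik, this]
  have hdet : A.det ≠ 0 := by
    intro h0
    have := congrArg Matrix.det hAB
    rw [Matrix.det_mul, h0, zero_mul, Matrix.det_one] at this
    exact zero_ne_one this
  refine H5.Rd.ne_zero (H5.Rd.det _ A ?_) hdet
  intro i j
  exact H5.Fm_rd _ (by omega)

end Pool.Agent.H18Z
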